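import Mathlib
import Pool.Agent.R849.FK.Key

set_option autoImplicit false

/-! # Forms with coefficients in a function field -/

namespace Pool.Agent.R849.FK

open FF MvPolynomial Pool.Agent.W603.LV Pool.Agent.W603.PV Pool.Agent.R849.UP
open Pool.Agent.R849.FC hiding bd parts

variable {L : Type} [Field L] [Algebra ℂ L] {r n : ℕ}

/-- the coefficients of `G` and of the terms -/
abbrev Ix (r : ℕ) (G : MvPolynomial (Fin n) L) : Type := {α // α ∈ G.support} ⊕ (Fin r × Fin n)

/-- `G (∑ Y_(j,a) X_j)` with indeterminate coefficients -/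
noncomputable def exu (G : MvPolynomial (Fin n) L) :
    MvPolynomial (Fin r) (MvPolynomial (Ix r G) ℂ) :=
  ∑ α : {α // α ∈ G.support}, C (X (Sum.inl α)) *
    ∏ a, (∑ j, C (X (Sum.inr (j, a))) * X j) ^ (α.1 a)

/-- the values of the indeterminates -/
noncomputable def vals (G : MvPolynomial (Fin n) L) (Y : Fin r × Fin n → L) : Ix r G → L :=
  Sum.elim (fun α => G.coeff α.1) Y

theorem exu_eval (G : MvPolynomial (Fin n) L) (Y : Fin r × Fin n → L) (v : Fin r → L) :
    eval₂ ((aeval (vals G Y) : MvPolynomial (Ix r G) ℂ →ₐ[ℂ] L) :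
      MvPolynomial (Ix r G) ℂ →+* L) v (exu G) = eval (fun a => ∑ j, Y (j, a) * v j) G := by
  unfold exu
  rw [← coe_eval₂Hom, map_sum, eval_eq', ← Finset.sum_coe_sort G.support]
  refine Finset.sum_congr rfl fun α _ => ?_
  rw [map_mul, map_prod, coe_eval₂Hom, eval₂_C]
  congr 1
  · simp [vals]
  · refine Finset.prod_congr rfl fun a _ => ?_
    rw [← coe_eval₂Hom, map_pow, map_sum]
    congr 1
    refine Finset.sum_congr rfl fun j _ => ?_
    rw [map_mul, coe_eval₂Hom, eval₂_C, eval₂_X]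
    simp [vals]

theorem exu_CDeg {G : MvPolynomial (Fin n) L} {d : ℕ} (hG : G.totalDegree ≤ d) :
    CDeg (exu G : MvPolynomial (Fin r) (MvPolynomial (Ix r G) ℂ)) (d + 1) := by
  classical
  unfold exu
  refine CDeg.sum _ _ fun α _ => ?_
  have h0 : CDeg (C (X (Sum.inl α)) : MvPolynomial (Fin r) (MvPolynomial (Ix r G) ℂ)) 1 := by
    have h1 := CDeg.C' (σ := Fin r) (X (Sum.inl α) : MvPolynomial (Ix r G) ℂ)
    rwa [totalDegree_X] at h1
  have h2 := h0.mul (CDeg.prod (Finset.univ : Finset (Fin n))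
    (fun a => (∑ j, C (X (Sum.inr (j, a))) * X j :
      MvPolynomial (Fin r) (MvPolynomial (Ix r G) ℂ)) ^ α.1 a) (fun a => α.1 a * 1)
    (fun a _ => ?_))
  · refine h2.mono ?_
    simp only [mul_one]
    have h3 := le_totalDegree α.2
    rw [Finsupp.sum_fintype _ _ (by simp)] at h3
    omega
  · refine CDeg.pow (CDeg.sum _ _ fun j _ => ?_) _
    have h3 := (CDeg.C' (σ := Fin r) (X (Sum.inr (j, a)) : MvPolynomial (Ix r G) ℂ)).mul
      (CDeg.X' (τ := Ix r G) j)
    rw [totalDegree_X, add_zero] at h3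
    exact h3

theorem exu_hom {G : MvPolynomial (Fin n) L} {e : ℕ} (h : G.IsHomogeneous e) :
    (exu G : MvPolynomial (Fin r) (MvPolynomial (Ix r G) ℂ)).IsHomogeneous e := by
  classical
  unfold exu
  refine IsHomogeneous.sum _ _ _ fun α _ => ?_
  have h1 : (∏ a, (∑ j, C (X (Sum.inr (j, a))) * X j :
      MvPolynomial (Fin r) (MvPolynomial (Ix r G) ℂ)) ^ (α.1 a)).IsHomogeneous e := by
    have h2 : e = ∑ a, 1 * α.1 a := by
      have h3 : α.1.degree = e := by
        by_contra hne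
        exact (mem_support_iff.1 α.2) (h.coeff_eq_zero hne)
      rw [← h3, Finsupp.degree_eq_sum]
      simp
    rw [h2]
    refine IsHomogeneous.prod _ _ _ fun a _ => ?_
    exact (IsHomogeneous.sum _ _ _ fun j _ => isHomogeneous_C_mul_X _ _).pow _
  exact h1.C_mul _

/-- **The dichotomy over a function field.** -/
theorem dich_k (d r : ℕ) : ∃ A : ℕ, ∀ {N : ℕ} {ι : Type} (L : Type) [Field L] [Algebra ℂ L]
    [IsFF ℂ L] (F : ι → MvPolynomial (Fin (N + 1)) L)
    (_ : ∀ i, ∃ e ≤ d, (F i).IsHomogeneous e) (Q : MvPolynomial (Fin (N + 1)) L) (eQ : ℕ)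
    (_ : eQ ≤ d) (_ : Q.IsHomogeneous eQ) (Hc : ℤ) (_ : 0 ≤ Hc)
    (_ : ∀ i, ∑ α ∈ (F i).support, hgt ℂ ((F i).coeff α) ≤ Hc)
    (_ : ∑ α ∈ Q.support, hgt ℂ (Q.coeff α) ≤ Hc)
    (M : ℕ) (_ : 2 * (d + 3) ^ (2 * (r + 1)) ≤ M) (S : Finset (Place ℂ L)) (u : Fin r → L)
    (ρ : Fin r → Fin (N + 1) → L) (x : Fin (N + 1) → L), (∀ j, u j ≠ 0) →
    (∀ P ∉ S, ∃ μ : ℤ, (∀ j, (M : ℤ) ∣ P.ord (u j) - μ) ∧
      (M : ℤ) ∣ P.ord (eval x Q) - eQ * μ) →
    (∀ a, x a = ∑ j, u j * ρ j a) → x ≠ 0 →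
    (∀ i, eval x (F i) = 0) → eval x Q ≠ 0 →
    pht ℂ x ≤ A * (max (canDeg ℂ L + S.card) 0 + Hc + ∑ j, ∑ a, hgt ℂ (ρ j a)) ∨
    ∃ (b : Fin (r + 1) → ℤ) (W : L → Fin (N + 1) → L), (∀ h a, W h a = ∑ j : Fin r,
        (u j * ρ j a) * h ^ b j.succ) ∧ W 1 = x ∧
      (∀ i h, h ≠ 0 → eval (W h) (F i) = 0) ∧
      (∀ h, h ≠ 0 → eval (W h) Q = eval x Q * h ^ b 0) ∧
      ∃ t : ℂ, t ≠ 0 ∧ ∃ a0 a1, W (algebraMap ℂ L t) a1 * x a0 - W (algebraMap ℂ L t) a0 * x a1 ≠
        0 := by
  classical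
  obtain ⟨cm, hcm⟩ := exists_cmax (box (d + 1) (r + 1))
  refine ⟨r * (cm * Pool.Agent.R849.FP.bd (d + 1) (r + 1)) + 1, ?_⟩
  intro N ι L _ _ _ F hF Q eQ heQ hQh Hc hHc hFc hQc M hM S u0 ρ0 x hu0 huS0 hx hx0 hxF hxQ
  -- the terms together with `Q (x)`
  obtain ⟨u, hu, huQ, hus⟩ : ∃ u : Fin (r + 1) → L, (∀ j, u j ≠ 0) ∧
      u 0 = eval x Q ∧ ∀ j, u (Fin.succ j) = u0 j := by
    refine ⟨Fin.cons (eval x Q) u0, fun j => ?_, rfl, fun j => rfl⟩
    refine Fin.cases ?_ (fun j => ?_) j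
    · exact hxQ
    · exact hu0 j
  obtain ⟨Y, hY⟩ : ∃ Y : Fin r × Fin (N + 1) → L, Y = fun p => ρ0 p.1 p.2 := ⟨_, rfl⟩
  have hYs : ∑ p, hgt ℂ (Y p) = ∑ j, ∑ a, hgt ℂ (ρ0 j a) := by
    rw [hY, Fintype.sum_prod_type]
  have hxu : ∀ a, x a = ∑ j, Y (j, a) * u j.succ := by
    intro a
    rw [hx a, hY]
    exact Finset.sum_congr rfl fun j _ => by rw [hus]; exact mul_comm _ _
  obtain ⟨E, hE⟩ : ∃ E, E = max (canDeg ℂ L + (S.card : ℤ)) 0 + Hc + ∑ p, hgt ℂ (Y p) := ⟨_, rfl⟩
  rw [← hYs, ← hE]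
  have hχ0 : 0 ≤ max (canDeg ℂ L + (S.card : ℤ)) 0 := le_max_right _ _
  have hYn : 0 ≤ ∑ p, hgt ℂ (Y p) := Finset.sum_nonneg fun _ _ => hgt_nonneg _
  have hE0 : 0 ≤ E := by rw [hE]; linarith
  have hYE : ∑ p, hgt ℂ (Y p) ≤ E := by rw [hE]; linarith
  have hsums : ∀ G : MvPolynomial (Fin (N + 1)) L, ∑ α ∈ G.support, hgt ℂ (G.coeff α) ≤ Hc →
      max (canDeg ℂ L + (S.card : ℤ)) 0 + ∑ p, hgt ℂ (vals (r := r) G Y p) ≤ E := by
    intro G hG
    have h1 : ∑ p, hgt ℂ (vals (r := r) G Y p) =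
        ∑ α ∈ G.support, hgt ℂ (G.coeff α) + ∑ p, hgt ℂ (Y p) := by
      rw [Fintype.sum_sum_type, ← Finset.sum_coe_sort G.support]
      rfl
    rw [h1, hE]
    linarith
  obtain ⟨B, hB⟩ : ∃ B : ℤ, B = Pool.Agent.R849.FP.bd (d + 1) (r + 1) * E := ⟨_, rfl⟩
  have hB0 : 0 ≤ B := by rw [hB]; positivity
  -- the lattice
  obtain ⟨D, hD⟩ : ∃ D : Set (Fin (r + 1) → ℤ),
      D = {δ | δ ∈ box (d + 1) (r + 1) ∧ hgt ℂ (mo u δ) ≤ B} := ⟨_, rfl⟩
  obtain ⟨b, hb1, hb2⟩ := exists_sep (sat D) (fun M γ hM h => sat_sat D M γ hM h)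
    ((box (d + 1) (r + 1)).filter (fun γ => γ ∉ sat D)) (fun p hp => (Finset.mem_filter.1 hp).2)
  have hbD : ∀ γ ∈ box (d + 1) (r + 1), hgt ℂ (mo u γ) ≤
      Pool.Agent.R849.FP.bd (d + 1) (r + 1) * E → ∑ j, γ j * b j = 0 := by
    intro γ hγ h
    rw [← hB] at h
    exact hb1 γ (subset_sat D (by rw [hD]; exact ⟨hγ, h⟩))
  have hratio : ∀ j k, b j = b k → hgt ℂ (u j / u k) ≤ cm * B := by
    intro j k hjk
    have h1 : (Pi.single j 1 - Pi.single k 1 : Fin (r + 1) → ℤ) ∈ box (d + 1) (r + 1) := by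
      rw [mem_box]
      intro l
      rw [Pi.sub_apply, Pi.single_apply, Pi.single_apply]
      split_ifs <;> constructor <;> omega
    have h2 : (Pi.single j 1 - Pi.single k 1 : Fin (r + 1) → ℤ) ∈ sat D := by
      by_contra hn
      have h3 := hb2 _ (Finset.mem_filter.2 ⟨h1, hn⟩)
      apply h3
      simp only [Pi.sub_apply, sub_mul, Finset.sum_sub_distrib, Pi.single_apply, ite_mul, one_mul,
        zero_mul, Finset.sum_ite_eq', Finset.mem_univ, if_true]
      rw [hjk, sub_self]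
    rw [hD] at h2
    have h3 : hgt ℂ (mo u (Pi.single j 1 - Pi.single k 1)) ≤ cm * B :=
      hcm (fun γ => hgt ℂ (mo u γ)) (mo_lht hu) B hB0 _ h1 h2
    have h4 : mo u (Pi.single j 1 - Pi.single k 1) = u j / u k := by
      rw [sub_eq_add_neg, mo_add hu, mo_neg, div_eq_mul_inv]
      have h5 : ∀ j, mo u (Pi.single j 1) = u j := by
        intro j
        unfold mo
        rw [Finset.prod_eq_single j]
        · rw [Pi.single_eq_same, zpow_one]
        · intro l _ hl
          rw [Pi.single_eq_of_ne hl, zpow_zero]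
        · intro h; exact absurd (Finset.mem_univ j) h
      rw [h5, h5]
    rwa [h4] at h3
  let W : L → Fin (N + 1) → L := fun t a => ∑ j : Fin r, Y (j, a) * (u j.succ * t ^ b j.succ)
  have hW1 : W 1 = x := by
    funext a
    rw [hxu a]
    exact Finset.sum_congr rfl fun j _ => by rw [one_zpow, mul_one]
  have hxu' : (fun a => ∑ j : Fin r, Y (j, a) * u j.succ) = x := funext fun a => (hxu a).symm
  have hev : ∀ (v : Fin (r + 1) → L) (G : MvPolynomial (Fin (N + 1)) L),
      eval₂ ((aeval (vals G Y) : MvPolynomial (Ix r G) ℂ →ₐ[ℂ] L) :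
        MvPolynomial (Ix r G) ℂ →+* L) v (rename Fin.succ (exu G)) =
      eval (fun a => ∑ j : Fin r, Y (j, a) * v j.succ) G := by
    intro v G
    rw [eval₂_rename, exu_eval]
    rfl
  have hord : ∀ P ∉ S, ∃ μ : ℤ, (∀ j : Fin r, (M : ℤ) ∣ P.ord (u j.succ) - μ) ∧
      (M : ℤ) ∣ P.ord (u 0) - eQ * μ := by
    intro P hP
    obtain ⟨μ, h1, h2⟩ := huS0 P hP
    exact ⟨μ, fun j => by rw [hus]; exact h1 j, by rw [huQ]; exact h2⟩
  -- equations
  have hWF : ∀ i, ∀ t : L, t ≠ 0 → eval (W t) (F i) = 0 := by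
    intro i t ht
    obtain ⟨e, he, hFe⟩ := hF i
    have hdeg := hFe.totalDegree_le.trans he
    have h1 := key_fk S u hu (d := d + 1) hM (vals (F i) Y) (E := E) (hsums _ (hFc i)) b hbD
      (rename Fin.succ (exu (F i))) (FQ.ren_CDeg (exu_CDeg hdeg))
      ((totalDegree_rename_le _ _).trans (((exu_hom hFe).totalDegree_le.trans he).trans
        (by omega))) (by
        intro P hP
        obtain ⟨μ, h1, -⟩ := hord P hP
        exact ⟨e * μ, fun m hm => FQ.ord_ren hu h1 (exu_hom hFe) hm⟩) (by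
        rw [hev, hxu']
        exact hxF i) t ht
    rw [hev] at h1
    exact h1
  have hWQ : ∀ t : L, t ≠ 0 → eval (W t) Q = u 0 * t ^ b 0 := by
    intro t ht
    have hdeg := hQh.totalDegree_le.trans heQ
    have hCX : CDeg (rename Fin.succ (exu Q) - X 0 : MvPolynomial (Fin (r + 1))
        (MvPolynomial (Ix r Q) ℂ)) (d + 1) := by
      intro m
      rw [coeff_sub]
      refine (totalDegree_sub _ _).trans (max_le (FQ.ren_CDeg (exu_CDeg hdeg) m) ?_)
      exact (CDeg.X' 0 m).trans (Nat.zero_le _)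
    have h1 := key_fk S u hu (d := d + 1) hM (vals Q Y) (E := E) (hsums _ hQc) b hbD
      (rename Fin.succ (exu Q) - X 0) hCX
      ((totalDegree_sub _ _).trans (max_le
        ((totalDegree_rename_le _ _).trans (((exu_hom hQh).totalDegree_le.trans heQ).trans
          (by omega)))
        (by rw [totalDegree_X]; omega))) (by
        intro P hP
        obtain ⟨μ, h1, h2⟩ := hord P hP
        refine ⟨eQ * μ, fun m hm => ?_⟩
        by_cases hm1 : m ∈ (rename Fin.succ (exu Q) : MvPolynomial (Fin (r + 1))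
            (MvPolynomial (Ix r Q) ℂ)).support
        · exact FQ.ord_ren hu h1 (exu_hom hQh) hm1
        · rw [mem_support_iff, coeff_sub, notMem_support_iff.1 hm1, zero_sub, coeff_X] at hm
          have hm2 : Finsupp.single 0 1 = m := by
            by_contra hne
            apply hm
            rw [if_neg hne, neg_zero]
          rw [← hm2, Fin.prod_univ_succ]
          have h3 : ∏ i : Fin r, u i.succ ^ (Finsupp.single (0 : Fin (r + 1)) 1) i.succ = 1 :=
            Finset.prod_eq_one fun i _ => by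
              rw [Finsupp.single_eq_of_ne (Fin.succ_ne_zero i), pow_zero]
          rw [h3, mul_one, Finsupp.single_eq_same, pow_one]
          exact h2) (by
        rw [eval₂_sub, eval₂_X, hev, hxu', huQ, sub_self]) t ht
    rw [eval₂_sub, eval₂_X, hev, sub_eq_zero] at h1
    exact h1
  by_cases hnc : ∃ t : ℂ, t ≠ 0 ∧ ∃ a0 a1, W (algebraMap ℂ L t) a1 * x a0 -
      W (algebraMap ℂ L t) a0 * x a1 ≠ 0
  · -- many curves
    right
    refine ⟨b, W, fun h a => ?_, hW1, fun i h hh => hWF i h hh, fun h hh => ?_, hnc⟩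
    · show ∑ j : Fin r, Y (j, a) * (u j.succ * h ^ b j.succ) = _
      rw [hY]
      exact Finset.sum_congr rfl fun j _ => by rw [hus]; ring
    · rw [hWQ h hh, huQ]
  · -- small degree
    left
    push Not at hnc
    obtain ⟨as, has⟩ := Function.ne_iff.1 hx0
    rw [Pi.zero_apply] at has
    let y : ℤ → Fin (N + 1) → L := fun c a =>
      ∑ j ∈ Finset.univ.filter (fun j : Fin r => b j.succ = c), Y (j, a) * u j.succ
    have hy : ∀ a0 a1 c, y c a1 * x a0 = y c a0 * x a1 := by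
      intro a0 a1 c
      have h1 := coeff_zero' Finset.univ (fun j : Fin r => b j.succ)
        (fun j => Y (j, a1) * u j.succ * x a0 -
        Y (j, a0) * u j.succ * x a1) (fun t ht => by
          rw [← hnc t ht a0 a1]
          simp only [W]
          rw [Finset.sum_mul, Finset.sum_mul, ← Finset.sum_sub_distrib]
          exact Finset.sum_congr rfl fun j _ => by ring) c
      rw [Finset.sum_sub_distrib, ← Finset.sum_mul, ← Finset.sum_mul] at h1
      exact sub_eq_zero.1 h1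
    obtain ⟨c, hc⟩ : ∃ c, y c as ≠ 0 := by
      by_contra hcon
      push Not at hcon
      apply has
      rw [hxu as, ← Finset.sum_fiberwise_of_maps_to
        (t := Finset.univ.image (fun j : Fin r => b j.succ)) (g := fun j : Fin r => b j.succ)
        (fun j hj => Finset.mem_image_of_mem _ hj)]
      exact Finset.sum_eq_zero fun c _ => hcon c
    obtain ⟨k, hk⟩ : ∃ k : Fin r, b k.succ = c := by
      by_contra hcon2
      push Not at hcon2
      apply hc
      show ∑ j ∈ Finset.univ.filter (fun j : Fin r => b j.succ = c), Y (j, as) * u j.succ = 0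
      rw [Finset.filter_false_of_mem (fun j _ => hcon2 j), Finset.sum_empty]
    have hlne : y c as / (x as * u k.succ) ≠ 0 := div_ne_zero hc (mul_ne_zero has (hu _))
    have h1 := pht_bound x ⟨as, has⟩ hlne
      (fun j : Fin r => if b j.succ = c then u j.succ / u k.succ else 0) Y (by
      intro a
      have h2 : y c a = y c as / x as * x a := by
        have h3 := hy as a c
        field_simp
        linear_combination h3
      have h3 : y c as / (x as * u k.succ) * x a = y c a / u k.succ := by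
        rw [h2]
        have := hu k.succ
        field_simp
      rw [h3]
      show (∑ j ∈ Finset.univ.filter (fun j : Fin r => b j.succ = c), Y (j, a) * u j.succ) /
        u k.succ = _
      rw [Finset.sum_div, Finset.sum_filter]
      refine Finset.sum_congr rfl fun j _ => ?_
      split_ifs
      · rw [mul_div_assoc]
      · rw [mul_zero])
    have h2 : ∑ j : Fin r, hgt ℂ (if b j.succ = c then u j.succ / u k.succ else 0) ≤
        r * (cm * B) := by
      have h3 : ∀ j ∈ (Finset.univ : Finset (Fin r)),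
          hgt ℂ (if b j.succ = c then u j.succ / u k.succ else 0) ≤ cm * B := by
        intro j _
        split_ifs with hj
        · exact hratio j.succ k.succ (hj.trans hk.symm)
        · rw [hgt_zero]
          positivity
      refine (Finset.sum_le_sum h3).trans ?_
      rw [Finset.sum_const, Finset.card_univ, Fintype.card_fin, nsmul_eq_mul]
    refine h1.trans ((add_le_add h2 hYE).trans (le_of_eq ?_))
    rw [hB]
    push_cast
    ring

end Pool.Agent.R849.FK
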