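import Mathlib
import Pool.Agent.R849.FK.Uni
import Pool.Agent.W603.LV.Root

set_option autoImplicit false

/-! # Values of polynomials at powers of a function -/

namespace Pool.Agent.R849.FK

open FF Pool.Agent.W603.LV Pool.Agent.W603.PV

variable {L : Type} [Field L] [Algebra ℂ L] [IsFF ℂ L]

theorem one_le_hgt {η : L} (hη : Transcendental ℂ η) : 1 ≤ hgt ℂ η := by
  by_contra h
  push Not at h
  obtain ⟨c, hc⟩ := const_of_hgt (k := ℂ) (f := η) (by omega)
  exact hη (hc ▸ isAlgebraic_algebraMap c)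

theorem pow_inj {η : L} (hη : Transcendental ℂ η) {a b : ℕ} (h : η ^ a = η ^ b) : a = b := by
  have hη0 : η ≠ 0 := by
    rintro rfl
    exact hη isAlgebraic_zero
  have h1 := congrArg (hgt ℂ) h
  rw [hgt_pow hη0, hgt_pow hη0] at h1
  have h2 := one_le_hgt hη
  have h3 : (a : ℤ) = b := mul_right_cancel₀ (by omega : hgt ℂ η ≠ 0) h1
  exact_mod_cast h3

/-- a polynomial does not vanish at high powers -/
theorem exists_pow {η : L} (hη : Transcendental ℂ η) {q : Polynomial L} (hq : q ≠ 0) (K0 : ℕ) :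
    ∃ k, K0 ≤ k ∧ q.eval (η ^ k) ≠ 0 := by
  classical
  by_contra hcon
  push Not at hcon
  have h1 : Set.range (fun k : ℕ => η ^ (K0 + k)) ⊆ (q.roots.toFinset : Set L) := by
    rintro _ ⟨k, rfl⟩
    rw [Finset.mem_coe, Multiset.mem_toFinset, Polynomial.mem_roots hq]
    exact hcon _ (by omega)
  have h2 : (Set.range (fun k : ℕ => η ^ (K0 + k))).Infinite :=
    Set.infinite_range_of_injective fun a b h => by
      have := pow_inj hη h
      omega
  exact h2 ((Finset.finite_toSet _).subset h1)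

/-- ratios of values at high powers have large height -/
theorem ratio_grow (p q : Polynomial L) (hpq : ∀ g : L, p - Polynomial.C g * q ≠ 0) {η : L}
    (hη : Transcendental ℂ η) : ∃ C : ℕ, ∀ k : ℕ, q.eval (η ^ k) ≠ 0 →
      (k : ℤ) ≤ C * (hgt ℂ (p.eval (η ^ k) / q.eval (η ^ k)) + 1) := by
  classical
  have hη0 : η ≠ 0 := by
    rintro rfl
    exact hη isAlgebraic_zero
  obtain ⟨N0, hN0⟩ : ∃ N0, N0 = max p.natDegree q.natDegree := ⟨_, rfl⟩
  obtain ⟨C0, hC0⟩ : ∃ C0 : ℤ, C0 = ∑ d ∈ Finset.range (N0 + 1),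
      2 * (hgt ℂ (p.coeff d) + hgt ℂ (q.coeff d)) := ⟨_, rfl⟩
  have hC0n : 0 ≤ C0 := by
    rw [hC0]
    exact Finset.sum_nonneg fun d _ => by
      have := hgt_nonneg (k := ℂ) (p.coeff d)
      have := hgt_nonneg (k := ℂ) (q.coeff d)
      positivity
  refine ⟨2 * (N0 + 1) + C0.toNat, fun k hk => ?_⟩
  obtain ⟨g, hg⟩ : ∃ g, g = p.eval (η ^ k) / q.eval (η ^ k) := ⟨_, rfl⟩
  rw [← hg]
  obtain ⟨R, hR⟩ : ∃ R : Polynomial L, R = p - Polynomial.C g * q := ⟨_, rfl⟩
  have hR0 : R ≠ 0 := hR ▸ hpq g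
  have hRD : R.natDegree ≤ N0 := by
    rw [hR, hN0]
    refine (Polynomial.natDegree_sub_le _ _).trans (max_le_max le_rfl ?_)
    exact Polynomial.natDegree_C_mul_le _ _
  have hRe : ∑ d ∈ Finset.range (R.natDegree + 1), R.coeff d * (η ^ k) ^ d = 0 := by
    rw [← Polynomial.eval_eq_sum_range, hR, Polynomial.eval_sub, Polynomial.eval_mul,
      Polynomial.eval_C, hg, div_mul_cancel₀ _ hk, sub_self]
  have h1 := hgt_root (k := ℂ) R.coeff (D := R.natDegree)
    (by rwa [Polynomial.coeff_natDegree, Polynomial.leadingCoeff_ne_zero]) (η ^ k) hRe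
  have h2 : hgt ℂ (R.coeff R.natDegree) + ∑ d ∈ Finset.range R.natDegree, hgt ℂ (R.coeff d) ≤
      ∑ d ∈ Finset.range (N0 + 1), hgt ℂ (R.coeff d) := by
    rw [add_comm, ← Finset.sum_range_succ]
    exact Finset.sum_le_sum_of_subset_of_nonneg
      (Finset.range_subset_range.2 (by omega)) fun _ _ _ => hgt_nonneg _
  have h3 : ∀ d, hgt ℂ (R.coeff d) ≤ 2 * (hgt ℂ (p.coeff d) + hgt ℂ (q.coeff d)) +
      2 * hgt ℂ g := by
    intro d
    have h4 := hgt_mvpoly (k := ℂ) (![p.coeff d, q.coeff d, g] : Fin 3 → L)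
      (MvPolynomial.X 0 - MvPolynomial.X 2 * MvPolynomial.X 1)
    have h5 : MvPolynomial.aeval (![p.coeff d, q.coeff d, g] : Fin 3 → L)
        (MvPolynomial.X 0 - MvPolynomial.X 2 * MvPolynomial.X 1 : MvPolynomial (Fin 3) ℂ) =
        R.coeff d := by
      rw [hR]
      simp
    have h6 : (MvPolynomial.X 0 - MvPolynomial.X 2 * MvPolynomial.X 1 :
        MvPolynomial (Fin 3) ℂ).totalDegree ≤ 2 := by
      refine (MvPolynomial.totalDegree_sub _ _).trans (max_le ?_ ?_)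
      · rw [MvPolynomial.totalDegree_X]; norm_num
      · refine (MvPolynomial.totalDegree_mul _ _).trans ?_
        rw [MvPolynomial.totalDegree_X, MvPolynomial.totalDegree_X]
    rw [h5] at h4
    refine h4.trans ?_
    have h7 : ∑ a, hgt ℂ ((![p.coeff d, q.coeff d, g] : Fin 3 → L) a) =
        hgt ℂ (p.coeff d) + hgt ℂ (q.coeff d) + hgt ℂ g := by
      rw [Fin.sum_univ_three]
      rfl
    rw [h7]
    have h8 : (0 : ℤ) ≤ hgt ℂ (p.coeff d) + hgt ℂ (q.coeff d) + hgt ℂ g := by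
      have := hgt_nonneg (k := ℂ) (p.coeff d)
      have := hgt_nonneg (k := ℂ) (q.coeff d)
      have := hgt_nonneg (k := ℂ) g
      positivity
    have h9 : (((MvPolynomial.X 0 - MvPolynomial.X 2 * MvPolynomial.X 1 :
        MvPolynomial (Fin 3) ℂ).totalDegree : ℕ) : ℤ) ≤ 2 := by exact_mod_cast h6
    have := mul_le_mul_of_nonneg_right h9 h8
    linarith
  have h4 : ∑ d ∈ Finset.range (N0 + 1), hgt ℂ (R.coeff d) ≤ C0 + 2 * (N0 + 1) * hgt ℂ g := by
    refine (Finset.sum_le_sum fun d _ => h3 d).trans (le_of_eq ?_)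
    rw [Finset.sum_add_distrib, ← hC0, Finset.sum_const, Finset.card_range, nsmul_eq_mul]
    push_cast
    ring
  have h5 : (k : ℤ) ≤ hgt ℂ (η ^ k) := by
    rw [hgt_pow hη0]
    have := mul_le_mul_of_nonneg_left (one_le_hgt hη) (by positivity : (0 : ℤ) ≤ k)
    linarith
  have h6 : (0 : ℤ) ≤ hgt ℂ g := hgt_nonneg _
  have h7 : ((C0.toNat : ℕ) : ℤ) = C0 := Int.toNat_of_nonneg hC0n
  push_cast
  rw [h7]
  have h8 : 0 ≤ C0 * hgt ℂ g := mul_nonneg hC0n h6
  have h9 : (0 : ℤ) ≤ N0 := by positivity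
  nlinarith

end Pool.Agent.R849.FK
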