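import Mathlib
import Pool.Agent.R849.FK.Grow
import Pool.Agent.W603.CX.Basic
import Pool.Agent.Results.MP_4dacf8_ag.SparsePoints

set_option autoImplicit false

/-! # Points with few terms in varieties of log general type over a function field -/

namespace Pool.Agent.R849.FK

open FF MvPolynomial Pool.Agent.W603.LV Pool.Agent.W603.PV Pool.Agent.R849.FC
open Pool.Agent.Results.MP_4dacf8_ag.SparsePoints
open Pool.Agent.W603.CX (hgt_le_pht)

/-- the bound for the heights of the points whose coordinates are sums of `r` terms -/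
def PtBound {F : Type} [Field F] [Algebra ℂ F] [IsFF ℂ F] {n g q : ℕ} (r : ℕ)
    (G : Fin g → MvPolynomial (Fin (n + 1)) F)
    (E : Fin q → Fin 1 → MvPolynomial (Fin (n + 1)) F) (d : Fin q → Fin 1 → ℕ)
    (Φ : MvPolynomial (Fin (n + 1)) F) (C C' : ℝ) : Prop :=
  ∀ (L : Type) [Field L] [Algebra ℂ L] [Algebra F L] [IsScalarTower ℂ F L]
    [FiniteDimensional F L] [IsFF ℂ L] (x : Fin (n + 1) → L)
    (t : Fin (n + 1) → Fin r → L), x ≠ 0 → OnX G x → (∀ i, ∃ j, aeval x (E i j) ≠ 0) →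
    aeval x Φ ≠ 0 → (∀ c, x c = ∑ j, t c j) →
    (height ℂ x : ℝ) / Module.finrank F L ≤
      C * (chi ℂ F L + truncatedCounting ℂ E d x + nu (∅ : Finset (Place ℂ F)) E d x t) + C'

/-- the closed set for a pair of log general type -/
theorem exists_pt_bound {F : Type} [Field F] [Algebra ℂ F] [IsFF ℂ F] {N s g q r m : ℕ}
    (hm : m = N + 1 + s) (G : Fin g → MvPolynomial (Fin m) F) (e : Fin g → ℕ)
    (hG : ∀ j, (G j).IsHomogeneous (e j))
    (E : Fin q → Fin 1 → MvPolynomial (Fin m) F) (d : Fin q → Fin 1 → ℕ)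
    (hE : ∀ i j, (E i j).IsHomogeneous (d i j)) (hdim : DimGE N G) (hsm : SmoothPair s G E)
    (hirr : Irred G) (hlgt : LogGeneralType ℂ N G E d) :
    ∃ (Φ : MvPolynomial (Fin m) F) (a : ℕ) (C C' : ℝ), Φ.IsHomogeneous a ∧ NonZeroOn G Φ ∧
      ∀ (L : Type) [Field L] [Algebra ℂ L] [Algebra F L] [IsScalarTower ℂ F L]
        [FiniteDimensional F L] [IsFF ℂ L] (x : Fin m → L)
        (t : Fin m → Fin r → L), x ≠ 0 → OnX G x → (∀ i, ∃ j, aeval x (E i j) ≠ 0) →
        aeval x Φ ≠ 0 → (∀ c, x c = ∑ j, t c j) →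
        (height ℂ x : ℝ) / Module.finrank F L ≤
          C * (chi ℂ F L + truncatedCounting ℂ E d x + nu (∅ : Finset (Place ℂ F)) E d x t) + C' := by
  subst hm
  obtain ⟨Φ, n, C, C', hΦ, hΦX, h⟩ := result N s g q 1 r G e hG E d hE hdim hsm hirr hlgt ∅
  obtain ⟨Ψ, n', a, b, hΨ, hΨX, ha, hbig⟩ := hlgt
  refine ⟨Φ * Ψ, n + n', a * C, a * C' + b, hΦ.mul hΨ, hirr _ _ hΦX hΨX, ?_⟩
  intro L _ _ _ _ _ _ x t hx hX hEx hΦx hxt
  rw [map_mul] at hΦx
  obtain ⟨A, hA, hle⟩ := hbig L x hx hX hEx (right_ne_zero_of_mul hΦx)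
  have h1 := ((h L x t hx hX hEx (left_ne_zero_of_mul hΦx) hxt).2 A hA).1
  have h2 := mul_le_mul_of_nonneg_left h1 ha.le
  linarith

theorem Ge_prod {L : Type} [Field L] [Algebra ℂ L] {P : Place ℂ L} {ι : Type} (s : Finset ι)
    (f : ι → L) (h : ∀ i ∈ s, Ge P 0 (f i)) : Ge P 0 (∏ i ∈ s, f i) := by
  classical
  induction s using Finset.induction_on with
  | empty => simpa using Ge.one (P := P)
  | insert a s ha ih =>
    rw [Finset.prod_insert ha]
    have h1 := (h a (Finset.mem_insert_self _ _)).mul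
      (ih fun i hi => h i (Finset.mem_insert_of_mem hi))
    simpa using h1

theorem Ge_pow {L : Type} [Field L] [Algebra ℂ L] {P : Place ℂ L} {f : L} (h : Ge P 0 f) (n : ℕ) :
    Ge P 0 (f ^ n) := by
  have := h.pow n
  simpa using this

/-- **Points with few terms lie in `Φ = 0`.** -/
theorem pts_in {F : Type} [Field F] [Algebra ℂ F] [IsFF ℂ F] {n g q r : ℕ}
    {G : Fin g → MvPolynomial (Fin (n + 1)) F}
    {E : Fin q → Fin 1 → MvPolynomial (Fin (n + 1)) F} {d : Fin q → Fin 1 → ℕ}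
    {Φ : MvPolynomial (Fin (n + 1)) F} {C C' : ℝ} (hB : PtBound r G E d Φ C C')
    {L : Type} [Field L] [Algebra ℂ L] [Algebra F L] [IsScalarTower ℂ F L]
    [FiniteDimensional F L] [IsFF ℂ L] (c : Fin r → Fin (n + 1) → L) (b : Fin r → ℕ)
    {W : L → Fin (n + 1) → L} (hW : ∀ h a, W h a = ∑ j, c j a * h ^ b j)
    (hG : ∀ i h, h ≠ 0 → aeval (W h) (G i) = 0) {Q0 : L} (hQ0 : Q0 ≠ 0) {b0 : ℤ}
    (hE : ∀ h, h ≠ 0 → ∏ i, aeval (W h) (E i 0) = Q0 * h ^ b0)
    (hnc : ∃ t : L, t ≠ 0 ∧ ∃ a0 a1, W t a1 * W 1 a0 - W t a0 * W 1 a1 ≠ 0) :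
    aeval (W 1) Φ = 0 := by
  classical
  by_contra hΦ
  obtain ⟨η, hη⟩ := IsFF.exists_transcendental (k := ℂ) (K := L)
  have hη0 : η ≠ 0 := by
    rintro rfl
    exact hη isAlgebraic_zero
  obtain ⟨p, hp'⟩ : ∃ p : Fin (n + 1) → Polynomial L,
      p = fun a => ∑ j, Polynomial.C (c j a) * Polynomial.X ^ b j := ⟨_, rfl⟩
  have hp : ∀ h a, (p a).eval h = W h a := by
    intro h a
    rw [hp', hW, Polynomial.eval_finsetSum]
    exact Finset.sum_congr rfl fun j _ => by simp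
  obtain ⟨t0, ht0, a0, a1, hne⟩ := hnc
  have hpq : ∀ g : L, p a1 - Polynomial.C g * p a0 ≠ 0 := by
    intro g h0
    have h1 : ∀ h, W h a1 = g * W h a0 := by
      intro h
      have h2 := congrArg (Polynomial.eval h) h0
      rw [Polynomial.eval_sub, Polynomial.eval_mul, Polynomial.eval_C, hp, hp,
        Polynomial.eval_zero] at h2
      exact sub_eq_zero.1 h2
    apply hne
    rw [h1 t0, h1 1]
    ring
  have hp0 : p a0 ≠ 0 := by
    intro h0
    have h1 : ∀ h, W h a0 = 0 := fun h => by rw [← hp, h0, Polynomial.eval_zero]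
    apply hne
    rw [h1, h1]
    ring
  have hp1 : p a1 ≠ 0 := by
    have := hpq 0
    rwa [map_zero, zero_mul, sub_zero] at this
  obtain ⟨φ, hφ'⟩ : ∃ φ : Polynomial L,
      φ = eval₂ (Polynomial.C.comp (algebraMap F L)) p Φ := ⟨_, rfl⟩
  have hφ : ∀ h, φ.eval h = aeval (W h) Φ := by
    intro h
    have h1 : φ.eval h = (Polynomial.evalRingHom h) φ := rfl
    rw [h1, hφ', eval₂_comp_left, aeval_def]
    have h2 : (Polynomial.evalRingHom h).comp (Polynomial.C.comp (algebraMap F L)) =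
        algebraMap F L := by
      ext z
      simp
    rw [h2]
    congr 1
    funext a
    exact hp h a
  have hφ0 : φ ≠ 0 := by
    intro h0
    apply hΦ
    rw [← hφ, h0, Polynomial.eval_zero]
  obtain ⟨C1, hC1⟩ := ratio_grow (p a1) (p a0) hpq hη
  -- the places
  obtain ⟨T1, hT1⟩ := exists_supp (k := ℂ) (Finset.univ : Finset (Fin r × Fin (n + 1)))
    (fun p => c p.1 p.2)
  obtain ⟨T2, hT2⟩ := exists_supp (k := ℂ) (Finset.univ : Finset (Fin 1)) ![η]
  obtain ⟨T3, hT3⟩ := exists_supp (k := ℂ) (Finset.univ : Finset (Fin 1)) ![Q0]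
  have h4 : ∀ i, ∃ T : Finset (Place ℂ L), ∀ α ∈ (E i 0).support, ∀ P : Place ℂ L,
      P.ord (algebraMap F L ((E i 0).coeff α)) ≠ 0 → P ∈ T := fun i =>
    exists_supp (k := ℂ) (E i 0).support (fun α => algebraMap F L ((E i 0).coeff α))
  choose T4 hT4 using h4
  obtain ⟨T, hT⟩ : ∃ T, T = T1 ∪ T2 ∪ T3 ∪ Finset.univ.biUnion T4 := ⟨_, rfl⟩
  obtain ⟨f, hf⟩ : ∃ f : ℝ, f = (Module.finrank F L : ℝ) := ⟨_, rfl⟩
  have hf1 : (1 : ℝ) ≤ f := by
    rw [hf]
    exact_mod_cast Module.finrank_pos (R := F) (M := L)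
  obtain ⟨Bd, hBd⟩ : ∃ Bd : ℝ, Bd = |C| * (|chi ℂ F L| + 2 * T.card) + |C'| := ⟨_, rfl⟩
  obtain ⟨K0, hK0⟩ := exists_nat_gt ((C1 : ℝ) * (Bd * f + 1))
  obtain ⟨k, hk, hk1⟩ := exists_pow hη (mul_ne_zero (mul_ne_zero hφ0 hp0) hp1) K0
  rw [Polynomial.eval_mul, Polynomial.eval_mul, hφ, hp, hp] at hk1
  obtain ⟨z, hz⟩ : ∃ z, z = η ^ k := ⟨_, rfl⟩
  have hz0 : z ≠ 0 := hz ▸ pow_ne_zero _ hη0
  have hCk := hC1 k (by rw [hp]; exact right_ne_zero_of_mul (left_ne_zero_of_mul hk1))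
  rw [hp, hp, ← hz] at hCk
  rw [← hz] at hk1
  have hy1 : W z a1 ≠ 0 := right_ne_zero_of_mul hk1
  have hy0 : W z a0 ≠ 0 := right_ne_zero_of_mul (left_ne_zero_of_mul hk1)
  have hyΦ : aeval (W z) Φ ≠ 0 := left_ne_zero_of_mul (left_ne_zero_of_mul hk1)
  have hyE : ∏ i, aeval (W z) (E i 0) ≠ 0 := by
    rw [hE z hz0]
    exact mul_ne_zero hQ0 (zpow_ne_zero _ hz0)
  have hyEi : ∀ i, aeval (W z) (E i 0) ≠ 0 := fun i => Finset.prod_ne_zero_iff.1 hyE i
    (Finset.mem_univ i)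
  have h1 := hB L (W z) (fun a j => c j a * z ^ b j) (fun h => hy0 (by rw [h]; rfl))
    (fun i => hG i z hz0) (fun i => ⟨0, hyEi i⟩) hyΦ (fun a => hW z a)
  -- orders outside `T`
  have hPz : ∀ P : Place ℂ L, P ∉ T → P.ord z = 0 := by
    intro P hP
    rw [hz, P.ord_pow]
    have : P.ord η = 0 := by
      by_contra h
      apply hP
      have := hT2 0 (Finset.mem_univ _) P h
      simp [hT, this]
    rw [this, mul_zero]
  have hPc : ∀ P : Place ℂ L, P ∉ T → ∀ j a, P.ord (c j a) = 0 := by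
    intro P hP j a
    by_contra h
    apply hP
    have := hT1 (j, a) (Finset.mem_univ _) P h
    simp [hT, this]
  have hPt : ∀ P : Place ℂ L, P ∉ T → ∀ j a, c j a * z ^ b j ≠ 0 →
      P.ord (c j a * z ^ b j) = 0 := by
    intro P hP j a h
    rw [P.ord_mul (left_ne_zero_of_mul h) (right_ne_zero_of_mul h), P.ord_pow, hPz P hP,
      hPc P hP, mul_zero, add_zero]
  have hPW : ∀ P : Place ℂ L, P ∉ T → ∀ a, Ge P 0 (W z a) := by
    intro P hP a
    rw [hW]
    refine Ge.sum _ _ fun j _ => ?_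
    by_cases h : c j a * z ^ b j = 0
    · exact Or.inl h
    · exact Or.inr (hPt P hP j a h).ge
  have hPE : ∀ P : Place ℂ L, P ∉ T → ∀ i, P.ord (aeval (W z) (E i 0)) = 0 := by
    intro P hP
    have h5 : ∀ i, 0 ≤ P.ord (aeval (W z) (E i 0)) := by
      intro i
      have h6 : Ge P 0 (aeval (W z) (E i 0)) := by
        rw [aeval_def, eval₂_eq']
        refine Ge.sum _ _ fun α hα => ?_
        have h7 : Ge P 0 (algebraMap F L ((E i 0).coeff α)) := by
          right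
          by_contra h8
          apply hP
          have h9 := hT4 i α hα P (by
            intro h10
            rw [h10] at h8
            exact h8 le_rfl)
          rw [hT]
          exact Finset.mem_union_right _ (Finset.mem_biUnion.2 ⟨i, Finset.mem_univ _, h9⟩)
        have h8 := h7.mul (Ge_prod (P := P) Finset.univ (fun a => W z a ^ α a)
          fun a _ => Ge_pow (hPW P hP a) _)
        simpa using h8
      rcases h6 with h | h
      · exact absurd h (hyEi i)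
      · exact h
    have h6 : ∑ i, P.ord (aeval (W z) (E i 0)) = 0 := by
      have h7 : ∀ s : Finset (Fin q), P.ord (∏ i ∈ s, aeval (W z) (E i 0)) =
          ∑ i ∈ s, P.ord (aeval (W z) (E i 0)) := by
        intro s
        induction s using Finset.induction_on with
        | empty => rw [Finset.prod_empty, Finset.sum_empty, P.ord_one]
        | insert a s ha ih =>
          rw [Finset.prod_insert ha, Finset.sum_insert ha, P.ord_mul (hyEi a)
            (Finset.prod_ne_zero_iff.2 fun j _ => hyEi j), ih]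
      rw [← h7, hE z hz0, P.ord_mul hQ0 (zpow_ne_zero _ hz0), P.ord_zpow, hPz P hP, mul_zero,
        add_zero]
      by_contra h
      apply hP
      have := hT3 0 (Finset.mem_univ _) P h
      simp [hT, this]
    intro i
    exact (Finset.sum_eq_zero_iff_of_nonneg fun i _ => h5 i).1 h6 i (Finset.mem_univ i)
  have hPL : ∀ P : Place ℂ L, P ∉ T → ∀ i, localHeight (E i) (d i) P (W z) ≤ 0 := by
    intro P hP i
    have h7 : 0 ≤ minOrd P (W z) := by
      unfold minOrd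
      have : Nonempty {a // W z a ≠ 0} := ⟨⟨a0, hy0⟩⟩
      refine le_ciInf fun a => ?_
      rcases hPW P hP a.1 with h | h
      · exact absurd h a.2
      · exact h
    refine le_trans (ciInf_le (Finite.bddBelow_range _)
      (⟨0, hyEi i⟩ : {j : Fin 1 // aeval (W z) (E i j) ≠ 0})) ?_
    show P.ord (aeval (W z) (E i 0)) - d i 0 * minOrd P (W z) ≤ 0
    rw [hPE P hP]
    have : 0 ≤ (d i 0 : ℤ) * minOrd P (W z) := mul_nonneg (by positivity) h7
    linarith
  have hPU : ∀ P : Place ℂ L, P ∈ unequal ℂ (fun a j => c j a * z ^ b j) → P ∈ T := by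
    rintro P ⟨a, j, a', j', h4, h5, h6⟩
    by_contra hP
    apply h6
    rw [hPt P hP j a h4, hPt P hP j' a' h5]
  -- the counting functions
  have hcard : ∀ V : Set (Place ℂ L), V ⊆ (T : Set (Place ℂ L)) →
      0 ≤ (V.ncard : ℝ) / f ∧ (V.ncard : ℝ) / f ≤ T.card := by
    intro V hV
    have h5 := Set.ncard_le_ncard hV T.finite_toSet
    rw [Set.ncard_coe_finset] at h5
    have h6 : (V.ncard : ℝ) ≤ T.card := by exact_mod_cast h5
    refine ⟨by positivity, (div_le_self (by positivity) hf1).trans h6⟩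
  obtain ⟨h5, h6⟩ := hcard {P : Place ℂ L | ∃ i, 0 < localHeight (E i) (d i) P (W z)} (by
    rintro P ⟨i, hi⟩
    by_contra hP
    exact absurd (hPL P hP i) (not_le.2 hi))
  obtain ⟨h7, h8⟩ := hcard {P : Place ℂ L | P ∈ unequal ℂ (fun a j => c j a * z ^ b j) ∧
    under F P ∉ (∅ : Finset (Place ℂ F)) ∧ ∀ i, localHeight (E i) (d i) P (W z) ≤ 0} (by
    rintro P ⟨hP, -, -⟩
    exact hPU P hP)
  have h9 : (height ℂ (W z) : ℝ) / f ≤ Bd := by
    rw [hf] at h5 h6 h7 h8 ⊢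
    refine h1.trans ?_
    obtain ⟨N1, hN1⟩ : ∃ N1, N1 = truncatedCounting ℂ E d (W z) := ⟨_, rfl⟩
    obtain ⟨N2, hN2⟩ : ∃ N2, N2 = nu (∅ : Finset (Place ℂ F)) E d (W z) (fun a j => c j a * z ^ b j) := ⟨_, rfl⟩
    have e1 : 0 ≤ N1 ∧ N1 ≤ T.card := by rw [hN1]; exact ⟨h5, h6⟩
    have e2 : 0 ≤ N2 ∧ N2 ≤ T.card := by rw [hN2]; exact ⟨h7, h8⟩
    rw [← hN1, ← hN2, hBd]
    refine add_le_add ?_ (le_abs_self _)
    refine (le_abs_self _).trans ?_
    rw [abs_mul]
    refine mul_le_mul_of_nonneg_left ?_ (abs_nonneg _)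
    have e3 := abs_add_le (chi ℂ F L) (N1 + N2)
    have e4 : |N1 + N2| = N1 + N2 := abs_of_nonneg (by linarith [e1.1, e2.1])
    rw [e4] at e3
    have e5 : chi ℂ F L + N1 + N2 = chi ℂ F L + (N1 + N2) := by ring
    rw [e5]
    linarith [e1.2, e2.2]
  have hf0 : 0 < f := by linarith
  rw [div_le_iff₀ hf0] at h9
  have h10 : hgt ℂ (W z a1 / W z a0) ≤ height ℂ (W z) := hgt_le_pht (W z) hy1 hy0
  have h11 : (k : ℝ) ≤ C1 * (height ℂ (W z) + 1) := by
    have h12 : (k : ℤ) ≤ C1 * (height ℂ (W z) + 1) :=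
      hCk.trans (mul_le_mul_of_nonneg_left (by linarith) (by positivity))
    exact_mod_cast h12
  have h12 : (C1 : ℝ) * (height ℂ (W z) + 1) ≤ C1 * (Bd * f + 1) :=
    mul_le_mul_of_nonneg_left (by linarith) (by positivity)
  have h13 : (K0 : ℝ) ≤ k := by exact_mod_cast hk
  linarith

end Pool.Agent.R849.FK
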