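import Mathlib
import Pool.Agent.R849.FK.Pts

set_option autoImplicit false

/-! # Heights of the points whose coordinates are sums of few high powers -/

namespace Pool.Agent.R849.FK

open FF MvPolynomial Pool.Agent.W603.LV Pool.Agent.W603.PV Pool.Agent.R849.FC
open Pool.Agent.Results.MP_4dacf8_ag.SparsePoints
open Pool.Agent.Y731.FG (aeval_smul_hom)

/-- `S` is a finite set of places of the field `L` over `F`, and `x` is a vector over `L` with
`G (x) = 0`, `E i (x) ≠ 0`. The coordinates are the sums `∑ u_j ρ_(j,a)`. For every place outside `S`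
there is a number `μ` such that the orders of the `u_j` are `μ` modulo `M` and the order of every
`E i (x)` is `d i * μ` modulo `M`. -/
structure PowerPoint {F : Type} [Field F] {n g q : ℕ} (G : Fin g → MvPolynomial (Fin (n + 1)) F)
    (E : Fin q → MvPolynomial (Fin (n + 1)) F) (d : Fin q → ℕ) {L : Type} [Field L] [Algebra ℂ L]
    [Algebra F L] {r : ℕ} (M : ℕ) (S : Finset (Place ℂ L)) (u : Fin r → L)
    (ρ : Fin r → Fin (n + 1) → L) (x : Fin (n + 1) → L) : Prop where
  ne : ∀ j, u j ≠ 0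
  power : ∀ P ∉ S, ∃ μ : ℤ, (∀ j, (M : ℤ) ∣ P.ord (u j) - μ) ∧
    ∀ i, (M : ℤ) ∣ P.ord (aeval x (E i)) - d i * μ
  coord : ∀ a, x a = ∑ j, u j * ρ j a
  nonzero : x ≠ 0
  mem : ∀ i, aeval x (G i) = 0
  off : ∀ i, aeval x (E i) ≠ 0

theorem eval_map' {F L : Type} [Field F] [Field L] [Algebra F L] {n : ℕ} (x : Fin n → L)
    (H : MvPolynomial (Fin n) F) : eval x (map (algebraMap F L) H) = aeval x H := by
  rw [eval_map, aeval_def]

theorem sum_map {F L : Type} [Field F] [Algebra ℂ F] [IsFF ℂ F] [Field L] [Algebra ℂ L]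
    [Algebra F L] [IsScalarTower ℂ F L] [FiniteDimensional F L] [IsFF ℂ L] {n : ℕ}
    (H : MvPolynomial (Fin n) F) :
    ∑ α ∈ (map (algebraMap F L) H).support, hgt ℂ ((map (algebraMap F L) H).coeff α) =
      Module.finrank F L * ∑ α ∈ H.support, hgt ℂ (H.coeff α) := by
  rw [support_map_of_injective _ (algebraMap F L).injective, Finset.mul_sum]
  exact Finset.sum_congr rfl fun α _ => by rw [coeff_map, hgt_algebraMap]

/-- the height bound for points outside `Φ = 0` -/
theorem pt_bound (δ r : ℕ) : ∃ A : ℕ, ∀ {F : Type} [Field F] [Algebra ℂ F] [IsFF ℂ F] {n g q : ℕ}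
    (G : Fin g → MvPolynomial (Fin (n + 1)) F)
    (e : Fin g → ℕ) (_ : ∀ j, (G j).IsHomogeneous (e j)) (_ : ∀ j, e j ≤ δ)
    (E : Fin q → MvPolynomial (Fin (n + 1)) F) (d : Fin q → ℕ)
    (_ : ∀ i, (E i).IsHomogeneous (d i)) (_ : ∑ i, d i ≤ δ), ∃ c : ℕ,
    ∀ (Φ : MvPolynomial (Fin (n + 1)) F) (C C' : ℝ)
    (_ : PtBound r G (fun i _ => E i) (fun i _ => d i) Φ C C')
    (M : ℕ) (_ : 2 * (δ + 3) ^ (2 * (r + 1)) ≤ M)
    (L : Type) [Field L] [Algebra ℂ L] [Algebra F L] [IsScalarTower ℂ F L]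
    [FiniteDimensional F L] [IsFF ℂ L] (S : Finset (Place ℂ L)) (u : Fin r → L)
    (ρ : Fin r → Fin (n + 1) → L) (x : Fin (n + 1) → L), PowerPoint G E d M S u ρ x →
    aeval x Φ ≠ 0 →
    height ℂ x ≤ A * (max (canDeg ℂ L + S.card) 0 + ∑ j, ∑ a, hgt ℂ (ρ j a)) +
      c * Module.finrank F L := by
  classical
  obtain ⟨A, hA⟩ := dich_k δ r
  refine ⟨A, ?_⟩
  intro F _ _ _ n g q G e hG he E d hE hd
  obtain ⟨Q, hQ⟩ : ∃ Q, Q = ∏ i, E i := ⟨_, rfl⟩
  have hQh : Q.IsHomogeneous (∑ i, d i) := hQ ▸ IsHomogeneous.prod _ _ _ fun i _ => hE i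
  obtain ⟨H, hH⟩ : ∃ H : ℤ, H = ∑ i, ∑ α ∈ (G i).support, hgt ℂ ((G i).coeff α) +
      ∑ α ∈ Q.support, hgt ℂ (Q.coeff α) := ⟨_, rfl⟩
  have hn1 : ∀ i, 0 ≤ ∑ α ∈ (G i).support, hgt ℂ ((G i).coeff α) := fun i =>
    Finset.sum_nonneg fun _ _ => hgt_nonneg _
  have hn2 : 0 ≤ ∑ α ∈ Q.support, hgt ℂ (Q.coeff α) := Finset.sum_nonneg fun _ _ => hgt_nonneg _
  have hH0 : 0 ≤ H := by
    rw [hH]
    exact add_nonneg (Finset.sum_nonneg fun i _ => hn1 i) hn2
  refine ⟨A * H.toNat, ?_⟩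
  intro Φ C C' hB M hM L _ _ _ _ _ _ S u ρ x hx hΦ
  have hordprod : ∀ P : Place ℂ L, ∀ s : Finset (Fin q),
      P.ord (∏ i ∈ s, aeval x (E i)) = ∑ i ∈ s, P.ord (aeval x (E i)) := by
    intro P s
    induction s using Finset.induction_on with
    | empty => rw [Finset.prod_empty, Finset.sum_empty, P.ord_one]
    | insert a s ha ih =>
      rw [Finset.prod_insert ha, Finset.sum_insert ha, P.ord_mul (hx.off a)
        (Finset.prod_ne_zero_iff.2 fun j _ => hx.off j), ih]
  have hxQ : aeval x Q ≠ 0 := by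
    rw [hQ, map_prod]
    exact Finset.prod_ne_zero_iff.2 fun i _ => hx.off i
  have hfr : (0 : ℤ) ≤ Module.finrank F L := by positivity
  rcases hA L (fun i => map (algebraMap F L) (G i)) (fun i => ⟨e i, he i, (hG i).map _⟩)
    (map (algebraMap F L) Q) (∑ i, d i) hd (hQh.map _) (Module.finrank F L * H)
    (mul_nonneg hfr hH0)
    (fun i => by
      rw [sum_map, hH]
      refine mul_le_mul_of_nonneg_left ?_ hfr
      have := Finset.single_le_sum (f := fun i => ∑ α ∈ (G i).support, hgt ℂ ((G i).coeff α))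
        (fun i _ => hn1 i) (Finset.mem_univ i)
      linarith)
    (by
      rw [sum_map, hH]
      refine mul_le_mul_of_nonneg_left ?_ hfr
      have := Finset.sum_nonneg (s := Finset.univ) fun i _ => hn1 i
      linarith)
    M hM S u ρ x hx.ne (by
      intro P hP
      obtain ⟨μ, h1, h2⟩ := hx.power P hP
      refine ⟨μ, h1, ?_⟩
      rw [eval_map', hQ, map_prod, hordprod, Nat.cast_sum, Finset.sum_mul,
        ← Finset.sum_sub_distrib]
      exact Finset.dvd_sum fun i _ => h2 i) hx.coord hx.nonzero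
    (fun i => by rw [eval_map']; exact hx.mem i) (by rw [eval_map']; exact hxQ)
    with h | ⟨b, W, hW, hW1, hWF, hWQ, t, ht, a0, a1, hne⟩
  · have h1 : height ℂ x = pht ℂ x := rfl
    rw [h1]
    refine h.trans (le_of_eq ?_)
    have h2 : ((H.toNat : ℕ) : ℤ) = H := Int.toNat_of_nonneg hH0
    push_cast
    rw [h2]
    ring
  · exfalso
    apply hΦ
    -- exponents which are not negative
    obtain ⟨m, hm⟩ : ∃ m : ℕ, ∀ j : Fin r, 0 ≤ b j.succ + m := by
      refine ⟨∑ j : Fin r, (b j.succ).natAbs, fun j => ?_⟩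
      have := Finset.single_le_sum (f := fun j : Fin r => (b j.succ).natAbs)
        (fun _ _ => Nat.zero_le _) (Finset.mem_univ j)
      have h2 : (b j.succ).natAbs ≤ ∑ j : Fin r, (b j.succ).natAbs := this
      omega
    obtain ⟨W', hW'⟩ : ∃ W' : L → Fin (n + 1) → L, W' = fun h a =>
      ∑ j, (u j * ρ j a) * h ^ (b j.succ + m).toNat := ⟨_, rfl⟩
    have hWW : ∀ h, h ≠ 0 → W' h = fun a => h ^ m * W h a := by
      intro h hh
      funext a
      rw [hW', hW, Finset.mul_sum]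
      refine Finset.sum_congr rfl fun j _ => ?_
      have h1 : h ^ (b j.succ + m).toNat = h ^ m * h ^ b j.succ := by
        rw [← zpow_natCast, Int.toNat_of_nonneg (hm j), zpow_add₀ hh, zpow_natCast, mul_comm]
      rw [h1]
      ring
    have hW1' : W' 1 = x := by
      rw [hWW 1 one_ne_zero, hW1]
      funext a
      rw [one_pow, one_mul]
    have ht' : algebraMap ℂ L t ≠ 0 := by
      rwa [Ne, map_eq_zero]
    rw [← hW1']
    refine pts_in hB (fun j a => u j * ρ j a) (fun j => (b j.succ + m).toNat) (W := W')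
      (fun h a => by rw [hW']) (fun i h hh => ?_) hxQ (b0 := m * (∑ i, d i : ℕ) + b 0)
      (fun h hh => ?_) ⟨algebraMap ℂ L t, ht', a0, a1, ?_⟩
    · rw [hWW h hh, aeval_smul_hom (hG i), ← eval_map', hWF i h hh, mul_zero]
    · rw [← map_prod, ← hQ, hWW h hh, aeval_smul_hom hQh, ← eval_map', hWQ h hh, eval_map',
        zpow_add₀ hh, zpow_mul, zpow_natCast, zpow_natCast]
      ring
    · rw [hW1', hWW _ ht']
      have h1 : algebraMap ℂ L t ^ m * W (algebraMap ℂ L t) a1 * x a0 -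
          algebraMap ℂ L t ^ m * W (algebraMap ℂ L t) a0 * x a1 =
          algebraMap ℂ L t ^ m * (W (algebraMap ℂ L t) a1 * x a0 -
            W (algebraMap ℂ L t) a0 * x a1) := by ring
      rw [h1]
      exact mul_ne_zero (pow_ne_zero _ ht') hne

end Pool.Agent.R849.FK
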