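import Mathlib
import Pool.Agent.R849.FK.Fin

set_option autoImplicit false

/-! # The height of the Gauss map -/

namespace Pool.Agent.R849.FK

open FF MvPolynomial Pool.Agent.W603.LV Pool.Agent.W603.PV Pool.Agent.R849.FC
open Pool.Agent.Y731.FG (exists_indep combF exists_minor hgtP_finset exists_minOrd hgtP_smul hgtP
  hgtP_nonneg SNCF)

theorem Ge_prod' {L : Type} [Field L] [Algebra ℂ L] {P : Place ℂ L} {ι : Type} (s : Finset ι)
    (f : ι → L) (N : ι → ℤ) (h : ∀ i ∈ s, Ge P (N i) (f i)) :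
    Ge P (∑ i ∈ s, N i) (∏ i ∈ s, f i) := by
  classical
  induction s using Finset.induction_on with
  | empty => simpa using Ge.one (P := P)
  | insert a s ha ih =>
    rw [Finset.prod_insert ha, Finset.sum_insert ha]
    exact (h a (Finset.mem_insert_self _ _)).mul (ih fun i hi => h i (Finset.mem_insert_of_mem hi))

/-- the height of a vector of forms -/
theorem forms_height {F : Type} [Field F] [Algebra ℂ F] [IsFF ℂ F] {ι : Type} [Fintype ι]
    {n m : ℕ} (H : ι → MvPolynomial (Fin n) F) (hH : ∀ i, (H i).IsHomogeneous m) :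
    ∃ c : ℕ, ∀ (L : Type) [Field L] [Algebra ℂ L] [Algebra F L] [IsScalarTower ℂ F L]
      [FiniteDimensional F L] [IsFF ℂ L] (x : Fin n → L), (∃ a, x a ≠ 0) →
      (∃ i, aeval x (H i) ≠ 0) →
      hgtP ℂ (fun i => aeval x (H i)) ≤ m * hgtP ℂ x + c * Module.finrank F L := by
  classical
  obtain ⟨c, hc⟩ : ∃ c : ℤ, c = ∑ i, ∑ α ∈ (H i).support, hgt ℂ ((H i).coeff α) := ⟨_, rfl⟩
  have hc0 : 0 ≤ c := by
    rw [hc]
    exact Finset.sum_nonneg fun i _ => Finset.sum_nonneg fun _ _ => hgt_nonneg _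
  refine ⟨c.toNat, ?_⟩
  intro L _ _ _ _ _ _ x hx hHx
  rw [Int.toNat_of_nonneg hc0]
  obtain ⟨T1, hT1⟩ := exists_supp (k := ℂ) (Finset.univ : Finset (Fin n)) x
  obtain ⟨T2, hT2⟩ := exists_supp (k := ℂ) (Finset.univ : Finset ι) (fun i => aeval x (H i))
  have h3 : ∀ i, ∃ T : Finset (Place ℂ L), ∀ α ∈ (H i).support, ∀ P : Place ℂ L,
      P.ord (algebraMap F L ((H i).coeff α)) ≠ 0 → P ∈ T := fun i =>
    exists_supp (k := ℂ) (H i).support (fun α => algebraMap F L ((H i).coeff α))
  choose T3 hT3 using h3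
  obtain ⟨T, hT⟩ : ∃ T, T = T1 ∪ T2 ∪ Finset.univ.biUnion T3 := ⟨_, rfl⟩
  have hTc : ∀ i, ∀ α ∈ (H i).support, ∀ P : Place ℂ L,
      P.ord (algebraMap F L ((H i).coeff α)) ≠ 0 → P ∈ T := by
    intro i α hα P hP
    rw [hT]
    exact Finset.mem_union_right _ (Finset.mem_biUnion.2 ⟨i, Finset.mem_univ _, hT3 i α hα P hP⟩)
  have h1 : hgtP ℂ x = -∑ P ∈ T, Pool.Agent.Y731.FG.minOrd P x := by
    refine hgtP_finset hx T fun P hP => ?_
    obtain ⟨a, ha, h⟩ := exists_minOrd P hx
    have := hT1 a (Finset.mem_univ _) P (by rw [h]; exact hP)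
    simp [hT, this]
  have h2 : hgtP ℂ (fun i => aeval x (H i)) =
      -∑ P ∈ T, Pool.Agent.Y731.FG.minOrd P (fun i => aeval x (H i)) := by
    refine hgtP_finset hHx T fun P hP => ?_
    obtain ⟨a, ha, h⟩ := exists_minOrd P hHx
    have := hT2 a (Finset.mem_univ _) P (by rw [h]; exact hP)
    simp [hT, this]
  have h4 : (Module.finrank F L : ℤ) * c = ∑ P ∈ T, ∑ i, ∑ α ∈ (H i).support,
      max (-P.ord (algebraMap F L ((H i).coeff α))) 0 := by
    rw [hc, Finset.mul_sum, Finset.sum_comm]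
    refine Finset.sum_congr rfl fun i _ => ?_
    rw [Finset.mul_sum, Finset.sum_comm]
    refine Finset.sum_congr rfl fun α hα => ?_
    rw [← hgt_algebraMap, hgt_finset _ T (hTc i α hα)]
  have h5 : ∀ P ∈ T, -Pool.Agent.Y731.FG.minOrd P (fun i => aeval x (H i)) ≤
      m * (-Pool.Agent.Y731.FG.minOrd P x) + ∑ i, ∑ α ∈ (H i).support,
        max (-P.ord (algebraMap F L ((H i).coeff α))) 0 := by
    intro P _
    obtain ⟨i, hi, h6⟩ := exists_minOrd P hHx
    rw [← h6]
    obtain ⟨K, hK⟩ : ∃ K : ℤ, K = ∑ i, ∑ α ∈ (H i).support,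
        max (-P.ord (algebraMap F L ((H i).coeff α))) 0 := ⟨_, rfl⟩
    rw [← hK]
    obtain ⟨μ, hμ⟩ : ∃ μ, μ = Pool.Agent.Y731.FG.minOrd P x := ⟨_, rfl⟩
    rw [← hμ]
    have h7 : Ge P (-K + m * μ) (aeval x (H i)) := by
      rw [aeval_def, eval₂_eq']
      refine Ge.sum _ _ fun α hα => ?_
      have h8 : Ge P (-K) (algebraMap F L ((H i).coeff α)) := by
        right
        have h9 : max (-P.ord (algebraMap F L ((H i).coeff α))) 0 ≤
            ∑ α ∈ (H i).support, max (-P.ord (algebraMap F L ((H i).coeff α))) 0 :=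
          Finset.single_le_sum (f := fun α => max (-P.ord (algebraMap F L ((H i).coeff α))) 0)
            (fun _ _ => le_max_right _ _) hα
        have h10 : ∑ α ∈ (H i).support, max (-P.ord (algebraMap F L ((H i).coeff α))) 0 ≤ K := by
          rw [hK]
          exact Finset.single_le_sum (f := fun i => ∑ α ∈ (H i).support,
            max (-P.ord (algebraMap F L ((H i).coeff α))) 0)
            (fun _ _ => Finset.sum_nonneg fun _ _ => le_max_right _ _) (Finset.mem_univ i)
        have := le_max_left (-P.ord (algebraMap F L ((H i).coeff α))) 0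
        linarith
      have h9 := Ge_prod' (P := P) Finset.univ (fun a => x a ^ α a) (fun a => (α a : ℤ) * μ)
        (fun a _ => Ge.pow (by
          by_cases h : x a = 0
          · exact Or.inl h
          · right
            rw [hμ]
            exact Pool.Agent.Y731.FG.minOrd_le P h) _)
      have h10 : ∑ a, (α a : ℤ) * μ = m * μ := by
        rw [← Finset.sum_mul, ← Nat.cast_sum]
        have h11 : α.degree = m := by
          by_contra hne
          exact (mem_support_iff.1 hα) ((hH i).coeff_eq_zero hne)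
        rw [← h11, Finsupp.degree_eq_sum]
      rw [h10] at h9
      exact h8.mul h9
    rcases h7 with h7 | h7
    · exact absurd h7 hi
    · linarith
  rw [h1, h2, mul_comm (c : ℤ), h4]
  have h6 := Finset.sum_le_sum h5
  rw [Finset.sum_add_distrib, ← Finset.mul_sum, Finset.sum_neg_distrib,
    Finset.sum_neg_distrib] at h6
  exact h6

section forms

variable {R : Type} [CommRing R] {s n : ℕ}

/-- the vector of the minors of a matrix with `s` rows, for `s + 1` columns -/
def kv (V : Fin s → Fin n → R) (K : Fin (s + 1) → Fin n) (c : Fin n) : R :=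
  ∑ i : Fin (s + 1), if K i = c then
    (-1) ^ (i : ℕ) * (Matrix.of fun l b => V l (K (i.succAbove b))).det else 0

theorem kv_orth (V : Fin s → Fin n → R) (K : Fin (s + 1) → Fin n) (l : Fin s) :
    ∑ c, V l c * kv V K c = 0 := by
  classical
  unfold kv
  simp only [Finset.mul_sum]
  rw [Finset.sum_comm]
  have h1 : ∀ i : Fin (s + 1), ∑ c, V l c * (if K i = c then
      (-1) ^ (i : ℕ) * (Matrix.of fun l b => V l (K (i.succAbove b))).det else 0) =
      (-1) ^ (i : ℕ) * V l (K i) * (Matrix.of fun l b => V l (K (i.succAbove b))).det := by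
    intro i
    rw [Finset.sum_eq_single (K i)]
    · rw [if_pos rfl]; ring
    · intro c _ hc
      rw [if_neg (Ne.symm hc), mul_zero]
    · intro h; exact absurd (Finset.mem_univ _) h
  rw [Finset.sum_congr rfl fun i _ => h1 i]
  have h2 : (Matrix.of (Fin.cons (fun i => V l (K i)) (fun l' i => V l' (K i)) :
      Fin (s + 1) → Fin (s + 1) → R)).det = 0 := by
    refine Matrix.det_zero_of_row_eq (i := 0) (j := l.succ) (Fin.succ_ne_zero l).symm ?_
    funext i
    simp
  rw [Matrix.det_succ_row_zero] at h2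
  rw [← h2]
  refine Finset.sum_congr rfl fun i _ => ?_
  congr 1

theorem kv_map {R' : Type} [CommRing R'] (f : R →+* R') (V : Fin s → Fin n → R)
    (K : Fin (s + 1) → Fin n) (c : Fin n) :
    f (kv V K c) = kv (fun l b => f (V l b)) K c := by
  unfold kv
  rw [map_sum]
  refine Finset.sum_congr rfl fun i _ => ?_
  split_ifs
  · rw [map_mul, map_pow, map_neg, map_one, RingHom.map_det]
    rfl
  · exact map_zero f

end forms

theorem det_hom {F : Type} [Field F] {σ : Type} {s : ℕ} (V : Matrix (Fin s) (Fin s) (MvPolynomial σ F))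
    (w : Fin s → ℕ) (h : ∀ l b, (V l b).IsHomogeneous (w l)) : V.det.IsHomogeneous (∑ l, w l) := by
  rw [Matrix.det_apply']
  refine IsHomogeneous.sum _ _ _ fun σ' _ => ?_
  have h1 : (∏ i, V (σ' i) i).IsHomogeneous (∑ l, w l) := by
    rw [← Equiv.sum_comp σ' w]
    exact IsHomogeneous.prod _ _ _ fun i _ => h _ _
  have h2 : (((Equiv.Perm.sign σ' : ℤ) : MvPolynomial σ F)).IsHomogeneous 0 := by
    have : ((Equiv.Perm.sign σ' : ℤ) : MvPolynomial σ F) =
      C ((Equiv.Perm.sign σ' : ℤ) : F) := by simp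
    rw [this]
    exact isHomogeneous_C _ _
  have := h2.mul h1
  rwa [zero_add] at this

theorem kv_hom {F : Type} [Field F] {σ : Type} {s n : ℕ} (V : Fin s → Fin n → MvPolynomial σ F)
    (w : Fin s → ℕ) (h : ∀ l b, (V l b).IsHomogeneous (w l)) (K : Fin (s + 1) → Fin n)
    (c : Fin n) : (kv V K c).IsHomogeneous (∑ l, w l) := by
  unfold kv
  refine IsHomogeneous.sum _ _ _ fun i _ => ?_
  split_ifs
  · have h1 := det_hom (Matrix.of fun l b => V l (K (i.succAbove b))) w fun l b => h _ _
    have h2 : ((-1 : MvPolynomial σ F) ^ (i : ℕ)).IsHomogeneous 0 := by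
      have : (-1 : MvPolynomial σ F) ^ (i : ℕ) = C ((-1) ^ (i : ℕ)) := by simp
      rw [this]
      exact isHomogeneous_C _ _
    have := h2.mul h1
    rwa [zero_add] at this
  · exact isHomogeneous_zero _ _ _

end Pool.Agent.R849.FK
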