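import Mathlib
import Pool.Agent.R849.FK.Gauss

set_option autoImplicit false

/-! # The height of the Gauss map is bounded by a multiple of the height -/

namespace Pool.Agent.R849.FK

open FF MvPolynomial Pool.Agent.W603.LV Pool.Agent.W603.PV Pool.Agent.R849.FC
open Pool.Agent.Results.MP_4dacf8_ag.SparsePoints
open Pool.Agent.Y731.FG (exists_indep combF exists_minor hgtP_smul hgtP hgtP_nonneg)

theorem exists_cols {K : Type} [Field K] {s n : ℕ} (V : Fin s → Fin n → K)
    (hV : LinearIndependent K V) :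
    ∃ J : Fin s → Fin n, (Matrix.of fun l b => V l (J b)).det ≠ 0 := by
  cases s with
  | zero => exact ⟨Fin.elim0, by rw [Matrix.det_fin_zero]; exact one_ne_zero⟩
  | succ s => exact exists_minor V hV

theorem exists_compl {a s : ℕ} (J0 : Fin s → Fin (a + s)) (hJ : Function.Injective J0) :
    ∃ J1 : Fin a → Fin (a + s), Function.Injective J1 ∧ ∀ i j, J0 i ≠ J1 j := by
  classical
  have hcard : ((Finset.univ.image J0)ᶜ : Finset (Fin (a + s))).card = a := by
    rw [Finset.card_compl, Finset.card_image_of_injective _ hJ, Fintype.card_fin,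
      Finset.card_univ, Fintype.card_fin]
    omega
  refine ⟨fun i => ((Finset.univ.image J0)ᶜ).orderEmbOfFin hcard i,
    fun i j h => ((Finset.univ.image J0)ᶜ.orderEmbOfFin hcard).injective h, fun i j h => ?_⟩
  have h1 := Finset.orderEmbOfFin_mem ((Finset.univ.image J0)ᶜ) hcard j
  rw [Finset.mem_compl] at h1
  exact h1 (Finset.mem_image.2 ⟨i, Finset.mem_univ _, h⟩)

theorem gauss_height {F : Type} [Field F] [Algebra ℂ F] [IsFF ℂ F] {N s g q w : ℕ}
    {G : Fin g → MvPolynomial (Fin (N + 1 + s)) F} {e : Fin g → ℕ}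
    (hG : ∀ j, (G j).IsHomogeneous (e j))
    {E : Fin q → Fin w → MvPolynomial (Fin (N + 1 + s)) F} (hsm : SmoothPair s G E) :
    ∃ D c : ℕ, ∀ (L : Type) [Field L] [Algebra ℂ L] [Algebra F L] [IsScalarTower ℂ F L]
      [FiniteDimensional F L] [IsFF ℂ L] (x : Fin (N + 1 + s) → L)
      (A : Matrix (Fin (N + 1 + s)) (Fin (N + 1)) L), x ≠ 0 → OnX G x → IsTangentBasis G x A →
      height ℂ (fun J : Fin (N + 1) → Fin (N + 1 + s) => (A.submatrix J id).det) ≤
        D * height ℂ x + c * Module.finrank F L := by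
  classical
  obtain ⟨Hf, hHf⟩ : ∃ Hf : (Fin s → Fin g) × (Fin s → Fin (N + 1 + s)) ×
      (Fin (N + 1) → Fin (N + 1 + s)) → (Fin (N + 1) → Fin (N + 1 + s)) →
      MvPolynomial (Fin (N + 1 + s)) F, Hf = fun p J => (Matrix.of fun ρ b =>
        kv (fun l c => pderiv c (G (p.1 l))) (Fin.cons (p.2.2 ρ) p.2.1) (J b)).det := ⟨_, rfl⟩
  have hHom : ∀ p J, (Hf p J).IsHomogeneous (∑ _ρ : Fin (N + 1), ∑ l, (e (p.1 l) - 1)) := by
    intro p J
    rw [hHf]
    refine det_hom _ (fun _ => ∑ l, (e (p.1 l) - 1)) fun ρ b => ?_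
    rw [Matrix.of_apply]
    have h0 := kv_hom (fun (l : Fin s) (c : Fin (N + 1 + s)) => pderiv c (G (p.1 l)))
      (fun l => e (p.1 l) - 1) (fun l b => (hG (p.1 l)).pderiv) (Fin.cons (p.2.2 ρ) p.2.1) (J b)
    exact h0
  have h1 := fun p => forms_height (F := F) (Hf p) (hHom p)
  choose c hc using h1
  refine ⟨∑ p : (Fin s → Fin g) × (Fin s → Fin (N + 1 + s)) ×
      (Fin (N + 1) → Fin (N + 1 + s)), ∑ _ρ : Fin (N + 1), ∑ l, (e (p.1 l) - 1), ∑ p, c p, ?_⟩
  intro L _ _ _ _ _ _ x A hx hX hA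
  have hx0 : ∃ a, x a ≠ 0 := by
    by_contra hno
    push Not at hno
    exact hx (funext hno)
  obtain ⟨T, hT⟩ := exists_indep (G := G) (Fd := E) (s := s)
    (fun z hz hzG => by
      obtain ⟨T, J', h⟩ := hsm z hz hzG
      exact ⟨T, J', h⟩) x hx0 hX
  obtain ⟨V, hV⟩ : ∃ V : Fin s → Fin (N + 1 + s) → L,
      V = fun l c => aeval x (pderiv c (G (T l))) := ⟨_, rfl⟩
  have hVi : LinearIndependent L V := by rw [hV]; exact hT
  obtain ⟨J0, hJ0⟩ := exists_cols V hVi
  have hJ0i : Function.Injective J0 := by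
    intro a b hab
    by_contra hne
    apply hJ0
    exact Matrix.det_zero_of_column_eq hne fun l => by
      rw [Matrix.of_apply, Matrix.of_apply, hab]
  obtain ⟨J1, hJ1i, hJ1⟩ := exists_compl J0 hJ0i
  obtain ⟨Q, hQ⟩ := combF V hVi (fun ρ c => A c ρ) (fun ρ c => kv V (Fin.cons (J1 ρ) J0) c)
    hA.1 (fun ρ j => by rw [hV]; exact hA.2 (T j) ρ) (fun ρ j => kv_orth V _ j)
  have h2 : ∀ J : Fin (N + 1) → Fin (N + 1 + s),
      (Matrix.of fun ρ b => kv V (Fin.cons (J1 ρ) J0) (J b)).det =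
        Q.det * (A.submatrix J id).det := by
    intro J
    have h3 : (Matrix.of fun ρ b => kv V (Fin.cons (J1 ρ) J0) (J b)) =
        Q * (A.submatrix J id).transpose := by
      ext ρ b
      rw [Matrix.of_apply, hQ, Matrix.mul_apply]
      rfl
    rw [h3, Matrix.det_mul, Matrix.det_transpose]
  have h3 : (Matrix.of fun ρ b => kv V (Fin.cons (J1 ρ) J0) (J1 b)).det ≠ 0 := by
    have h4 : (Matrix.of fun ρ b => kv V (Fin.cons (J1 ρ) J0) (J1 b)) =
        Matrix.diagonal fun _ : Fin (N + 1) => (Matrix.of fun l b => V l (J0 b)).det := by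
      ext ρ b
      rw [Matrix.of_apply, Matrix.diagonal_apply]
      unfold kv
      rw [Fin.sum_univ_succ, Finset.sum_eq_zero (s := Finset.univ), add_zero]
      · by_cases hρ : ρ = b
        · rw [if_pos hρ, if_pos (by rw [Fin.cons_zero, hρ])]
          simp
        · rw [if_neg hρ, if_neg]
          rw [Fin.cons_zero]
          exact fun h => hρ (hJ1i h)
      · intro i _
        rw [if_neg]
        rw [Fin.cons_succ]
        exact hJ1 i b
    rw [h4, Matrix.det_diagonal]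
    exact Finset.prod_ne_zero_iff.2 fun _ _ => hJ0
  have h4 : ∀ J, aeval x (Hf (T, J0, J1) J) =
      (Matrix.of fun ρ b => kv V (Fin.cons (J1 ρ) J0) (J b)).det := by
    intro J
    rw [hHf, AlgHom.map_det]
    congr 1
    ext ρ b
    have h5 := kv_map (aeval x : MvPolynomial (Fin (N + 1 + s)) F →ₐ[F] L).toRingHom
      (fun l c => pderiv c (G (T l))) (Fin.cons (J1 ρ) J0) (J b)
    rw [hV]
    exact h5
  have h5 := hc (T, J0, J1) L x hx0 ⟨J1, by rw [h4]; exact h3⟩
  have h6 : hgtP ℂ (fun J => aeval x (Hf (T, J0, J1) J)) =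
      hgtP ℂ (fun J : Fin (N + 1) → Fin (N + 1 + s) => (A.submatrix J id).det) := by
    have h7 : (fun J => aeval x (Hf (T, J0, J1) J)) = fun J => Q.det * (A.submatrix J id).det :=
      funext fun J => (h4 J).trans (h2 J)
    rw [h2] at h3
    rw [h7]
    exact hgtP_smul (left_ne_zero_of_mul h3) ⟨J1, right_ne_zero_of_mul h3⟩
  rw [h6] at h5
  have h7 : (0 : ℤ) ≤ hgtP ℂ x := hgtP_nonneg hx0
  have h8 : (∑ _ρ : Fin (N + 1), ∑ l, (e (T l) - 1)) ≤ ∑ p : (Fin s → Fin g) ×
      (Fin s → Fin (N + 1 + s)) × (Fin (N + 1) → Fin (N + 1 + s)),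
        ∑ _ρ : Fin (N + 1), ∑ l, (e (p.1 l) - 1) :=
    Finset.single_le_sum (f := fun p : (Fin s → Fin g) ×
      (Fin s → Fin (N + 1 + s)) × (Fin (N + 1) → Fin (N + 1 + s)) =>
        ∑ _ρ : Fin (N + 1), ∑ l, (e (p.1 l) - 1)) (fun _ _ => Nat.zero_le _)
      (Finset.mem_univ (T, J0, J1))
  have h9 : c (T, J0, J1) ≤ ∑ p, c p :=
    Finset.single_le_sum (f := c) (fun _ _ => Nat.zero_le _) (Finset.mem_univ (T, J0, J1))
  refine le_trans h5 (add_le_add ?_ ?_)
  · exact mul_le_mul_of_nonneg_right (by exact_mod_cast h8) h7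
  · exact mul_le_mul_of_nonneg_right (by exact_mod_cast h9) (by positivity)

end Pool.Agent.R849.FK
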