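import Mathlib
import Pool.Agent.R849.FK.Gh

set_option autoImplicit false

/-! # Vojta's inequality for the points whose coordinates are sums of few high powers -/

namespace Pool.Agent.R849.FK

open FF MvPolynomial Pool.Agent.W603.LV Pool.Agent.W603.PV Pool.Agent.R849.FC
open Pool.Agent.Results.MP_4dacf8_ag.SparsePoints

/-- `x` is a point over the field `L` over `F` with `G (x) = 0`, `E i (x) ≠ 0`. The coordinates are
the sums `∑ u_j ρ_(j,a)`, where the heights of the `ρ_(j,a)`, divided by `[L : F]`, are at most `B`.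
At the places of `L` which are neither over a place of `S` nor on `D` the orders of the `u_j` are,
modulo `M`, equal to the smallest order of a coordinate of `x`. -/
structure SumPoint {F : Type} [Field F] [Algebra ℂ F] [IsFF ℂ F] {n g q : ℕ}
    (G : Fin g → MvPolynomial (Fin (n + 1)) F)
    (E : Fin q → MvPolynomial (Fin (n + 1)) F) (d : Fin q → ℕ) {L : Type} [Field L] [Algebra ℂ L]
    [Algebra F L] [IsScalarTower ℂ F L] [IsFF ℂ L] {r : ℕ} (M B : ℕ) (S : Finset (Place ℂ F))
    (u : Fin r → L) (ρ : Fin r → Fin (n + 1) → L) (x : Fin (n + 1) → L) : Prop where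
  ne : ∀ j, u j ≠ 0
  small : ∀ j a, hgt ℂ (ρ j a) ≤ B * Module.finrank F L
  power : ∀ P : Place ℂ L, under F P ∉ S →
    (∀ i, localHeight (fun _ : Fin 1 => E i) (fun _ => d i) P x ≤ 0) →
      ∀ j, (M : ℤ) ∣ P.ord (u j) - minOrd P x
  coord : ∀ a, x a = ∑ j, u j * ρ j a
  nonzero : x ≠ 0
  mem : OnX G x
  off : ∀ i, aeval x (E i) ≠ 0

theorem lh_one {F L : Type} [Field F] [Field L] [Algebra ℂ L] [Algebra F L] {n : ℕ}
    (E : MvPolynomial (Fin n) F) (d : ℕ) (P : Place ℂ L) (x : Fin n → L) (h : aeval x E ≠ 0) :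
    localHeight (fun _ : Fin 1 => E) (fun _ => d) P x = P.ord (aeval x E) - d * minOrd P x := by
  have : Nonempty {j : Fin 1 // aeval x ((fun _ : Fin 1 => E) j) ≠ 0} := ⟨⟨0, h⟩⟩
  exact ciInf_const

/-- the height with respect to a hypersurface -/
theorem component {F L : Type} [Field F] [Field L] [Algebra ℂ L] [Algebra F L] [IsFF ℂ L] {n : ℕ}
    (E : MvPolynomial (Fin n) F) (d : ℕ) (x : Fin n → L) (hx : ∃ a, x a ≠ 0)
    (h : aeval x E ≠ 0) :
    componentHeight ℂ (fun _ : Fin 1 => E) (fun _ => d) x = d * height ℂ x := by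
  unfold componentHeight
  rw [finsum_congr fun P => lh_one E d P x h]
  have h1 : {P : Place ℂ L | minOrd P x ≠ 0}.Finite :=
    Pool.Agent.Y731.FG.minOrd_finite (k := ℂ) hx
  have h2 : (Function.support fun P : Place ℂ L => (d : ℤ) * minOrd P x).Finite :=
    h1.subset fun P hP => right_ne_zero_of_mul hP
  rw [finsum_sub_distrib (finite_support _) h2, sum_ord, ← mul_finsum]
  unfold height
  ring

/-- the height for `K + D` is at most a multiple of the height -/
theorem log_height {F : Type} [Field F] [Algebra ℂ F] [IsFF ℂ F] {N s g q m : ℕ}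
    (hm : m = N + 1 + s) {G : Fin g → MvPolynomial (Fin m) F} {e : Fin g → ℕ}
    (hG : ∀ j, (G j).IsHomogeneous (e j)) {E : Fin q → MvPolynomial (Fin m) F} (d : Fin q → ℕ)
    (hsm : SmoothPair s G (fun i (_ : Fin 1) => E i)) :
    ∃ D c : ℕ, ∀ (L : Type) [Field L] [Algebra ℂ L] [Algebra F L] [IsScalarTower ℂ F L]
      [FiniteDimensional F L] [IsFF ℂ L] (x : Fin m → L)
      (A : Matrix (Fin m) (Fin (N + 1)) L), x ≠ 0 → OnX G x → (∀ i, aeval x (E i) ≠ 0) →
      IsTangentBasis G x A →
      logCanonicalHeight ℂ F (fun i (_ : Fin 1) => E i) (fun i _ => d i) x A ≤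
        D * ((height ℂ x : ℝ) / Module.finrank F L) + c := by
  classical
  subst hm
  obtain ⟨D, c, h⟩ := gauss_height (F := F) hG hsm
  refine ⟨D + ∑ i, d i, c, ?_⟩
  intro L _ _ _ _ _ _ x A hx hX hE hA
  have hx0 : ∃ a, x a ≠ 0 := by
    by_contra hno
    push Not at hno
    exact hx (funext hno)
  have h1 := h L x A hx hX hA
  have h2 : (0 : ℤ) ≤ height ℂ x := Pool.Agent.Y731.FG.hgtP_nonneg hx0
  have h3 : ∑ i, componentHeight ℂ (fun _ : Fin 1 => E i) (fun _ => d i) x =
      (∑ i, d i : ℕ) * height ℂ x := by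
    rw [Nat.cast_sum, Finset.sum_mul]
    exact Finset.sum_congr rfl fun i _ => component (E i) (d i) x hx0 (hE i)
  have hf : (0 : ℝ) < Module.finrank F L := by
    exact_mod_cast Module.finrank_pos (R := F) (M := L)
  have h4 : (canonicalHeight ℂ x A + ∑ i, componentHeight ℂ (fun _ : Fin 1 => E i)
      (fun _ => d i) x : ℤ) ≤ (D + ∑ i, d i : ℕ) * height ℂ x + c * Module.finrank F L := by
    rw [h3]
    unfold canonicalHeight
    have h5 : (0 : ℤ) ≤ (N + 1) * height ℂ x := mul_nonneg (by positivity) h2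
    push_cast at h1 ⊢
    linarith
  have h5 : ((canonicalHeight ℂ x A + ∑ i, componentHeight ℂ (fun _ : Fin 1 => E i)
      (fun _ => d i) x : ℤ) : ℝ) ≤ (D + ∑ i, d i : ℕ) * height ℂ x + c * Module.finrank F L := by
    exact_mod_cast h4
  unfold logCanonicalHeight
  rw [div_le_iff₀ hf]
  refine h5.trans (le_of_eq ?_)
  field_simp

/-- points with conditions outside a fixed set of places and `D` -/
theorem sum_to_power {F : Type} [Field F] [Algebra ℂ F] [IsFF ℂ F] {n g q : ℕ}
    {G : Fin g → MvPolynomial (Fin (n + 1)) F} {E : Fin q → MvPolynomial (Fin (n + 1)) F}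
    {d : Fin q → ℕ} (hE : ∀ i, (E i).IsHomogeneous (d i)) (S : Finset (Place ℂ F)) :
    ∃ c1 : ℕ, ∀ (L : Type) [Field L] [Algebra ℂ L] [Algebra F L] [IsScalarTower ℂ F L]
      [FiniteDimensional F L] [IsFF ℂ L] {r : ℕ} (M B : ℕ) (u : Fin r → L)
      (ρ : Fin r → Fin (n + 1) → L) (x : Fin (n + 1) → L), SumPoint G E d M B S u ρ x →
      ∃ S' : Finset (Place ℂ L), PowerPoint G E d M S' u ρ x ∧
        (S'.card : ℝ) ≤ Module.finrank F L * (truncatedCounting ℂ (fun i (_ : Fin 1) => E i)
          (fun i _ => d i) x + c1) := by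
  classical
  have h3 : ∀ i, ∃ T : Finset (Place ℂ F), ∀ α ∈ (E i).support, ∀ P : Place ℂ F,
      P.ord ((E i).coeff α) ≠ 0 → P ∈ T := fun i =>
    exists_supp (k := ℂ) (E i).support (fun α => (E i).coeff α)
  choose T hT using h3
  obtain ⟨S1, hS1⟩ : ∃ S1, S1 = S ∪ Finset.univ.biUnion T := ⟨_, rfl⟩
  have hc1 : 0 ≤ ∑ v ∈ S1, hgt ℂ (unif v) := Finset.sum_nonneg fun _ _ => hgt_nonneg _
  refine ⟨(∑ v ∈ S1, hgt ℂ (unif v)).toNat, ?_⟩
  intro L _ _ _ _ _ _ r M B u ρ x hx
  have hx0 : ∃ a, x a ≠ 0 := by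
    by_contra hno
    push Not at hno
    exact hx.nonzero (funext hno)
  have hfin1 : {P : Place ℂ L | under F P ∈ S1}.Finite :=
    finite_over_set (Finset.finite_toSet S1)
  have hfin2 : {P : Place ℂ L | ∃ i, 0 < localHeight (fun _ : Fin 1 => E i) (fun _ => d i) P x}.Finite := by
    refine (Set.finite_iUnion fun i : Fin q =>
      (Pool.Agent.Y731.FG.locH_finite (k := ℂ) (G := fun _ : Fin 1 => E i) (d := fun _ => d i) hx0
        ⟨0, hx.off i⟩)).subset ?_
    rintro P ⟨i, hi⟩
    exact Set.mem_iUnion.2 ⟨i, (ne_of_gt hi : localHeight _ _ P x ≠ 0)⟩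
  refine ⟨hfin1.toFinset ∪ hfin2.toFinset, ⟨hx.ne, ?_, hx.coord, hx.nonzero, hx.mem, hx.off⟩, ?_⟩
  · intro P hP
    rw [Finset.mem_union, not_or, Set.Finite.mem_toFinset, Set.Finite.mem_toFinset] at hP
    obtain ⟨hP1, hP2⟩ := hP
    have hP3 : ∀ i, localHeight (fun _ : Fin 1 => E i) (fun _ => d i) P x ≤ 0 := by
      intro i
      by_contra h
      exact hP2 ⟨i, not_le.1 h⟩
    have hPS : under F P ∉ S := fun h => hP1 (by
      rw [Set.mem_ofPred_eq, hS1]
      exact Finset.mem_union_left _ h)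
    refine ⟨minOrd P x, hx.power P hPS hP3, fun i => ?_⟩
    have h4 := hP3 i
    rw [lh_one _ _ _ _ (hx.off i)] at h4
    have h5 : Ge P (0 + d i * minOrd P x) (aeval x (E i)) := by
      rw [aeval_def, eval₂_eq']
      refine Ge.sum _ _ fun α hα => ?_
      have h8 : Ge P 0 (algebraMap F L ((E i).coeff α)) := by
        right
        have h9 : (under F P).ord ((E i).coeff α) = 0 := by
          by_contra h10
          apply hP1
          rw [Set.mem_ofPred_eq, hS1]
          exact Finset.mem_union_right _ (Finset.mem_biUnion.2 ⟨i, Finset.mem_univ _,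
            hT i α hα _ h10⟩)
        rw [ord_under, h9, mul_zero]
      have h9 := Ge_prod' (P := P) Finset.univ (fun a => x a ^ α a)
        (fun a => (α a : ℤ) * minOrd P x)
        (fun a _ => Ge.pow (by
          by_cases h : x a = 0
          · exact Or.inl h
          · right
            exact Pool.Agent.Y731.FG.minOrd_le P h) _)
      have h10 : ∑ a, (α a : ℤ) * minOrd P x = d i * minOrd P x := by
        rw [← Finset.sum_mul, ← Nat.cast_sum]
        have h11 : α.degree = d i := by
          by_contra hne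
          exact (mem_support_iff.1 hα) ((hE i).coeff_eq_zero hne)
        rw [← h11, Finsupp.degree_eq_sum]
      rw [h10] at h9
      exact h8.mul h9
    rcases h5 with h5 | h5
    · exact absurd h5 (hx.off i)
    · have h6 : P.ord (aeval x (E i)) - d i * minOrd P x = 0 := by linarith
      rw [h6]
      exact dvd_zero _
  · have hf : (0 : ℝ) < Module.finrank F L := by
      exact_mod_cast Module.finrank_pos (R := F) (M := L)
    have h4 : ((hfin1.toFinset ∪ hfin2.toFinset).card : ℝ) ≤
        (hfin1.toFinset.card : ℝ) + hfin2.toFinset.card := by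
      exact_mod_cast Finset.card_union_le _ _
    have h5 : (hfin1.toFinset.card : ℝ) ≤ Module.finrank F L *
        ((∑ v ∈ S1, hgt ℂ (unif v)).toNat : ℕ) := by
      have h6 := card_over_le (k := ℂ) (F := F) (L := L) S1
      rw [Set.ncard_eq_toFinset_card _ hfin1] at h6
      have h7 : ((hfin1.toFinset.card : ℕ) : ℤ) ≤ Module.finrank F L *
          (((∑ v ∈ S1, hgt ℂ (unif v)).toNat : ℕ) : ℤ) := by
        rw [Int.toNat_of_nonneg hc1]
        exact h6
      exact_mod_cast h7
    have h6 : (hfin2.toFinset.card : ℝ) = Module.finrank F L *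
        truncatedCounting ℂ (fun i (_ : Fin 1) => E i) (fun i _ => d i) x := by
      unfold truncatedCounting
      rw [mul_div_cancel₀ _ hf.ne', Set.ncard_eq_toFinset_card _ hfin2]
    rw [mul_add]
    linarith

end Pool.Agent.R849.FK
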