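import Mathlib
import Pool.Agent.R849.FK.Voj

set_option autoImplicit false

/-!
# Vojta's height inequality over function fields, for the points whose coordinates are sums of few
# high powers

MP_4dacf8_ag, Q1, for all pairs `(X, D)` of log general type over a function field `F` over the
complex numbers (the components of `D` being hypersurface sections; neither `X` nor `D` is assumed
to be defined over the complex numbers), and for the points, over all finite extensions of `F`,
whose coordinates are sums of `r` terms whose zeros and poles have, outside a small set of places,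
orders divisible by a large number `M`. The conditions on the pair and the heights are those of the
starting file `SparsePoints`.
-/

namespace Pool.Agent.R849.FK.SumsOfPowersPoints

open FF MvPolynomial Pool.Agent.W603.LV Pool.Agent.W603.PV Pool.Agent.R849.FK
open Pool.Agent.Results.MP_4dacf8_ag.SparsePoints hiding result

/-- For all `δ` and `r` there is a number `A` such that the following holds. Let `F` be a function
field of one variable over the complex numbers, `X` a smooth irreducible projective variety of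
dimension `N` over `F` in `P^n` (`n = N + s`) with the equations `G j = 0`, `deg G j ≤ δ`. Let `D` be
a divisor with strict normal crossings on `X`, whose components `D_i` are given by forms `E i` of
degrees `d i`, `∑ d i ≤ δ`, such that `(X, D)` is of log general type. Then there are a form `Φ` over
`F` which does not vanish on `X` and constants `c`, `C` such that for all `M ≥ 2 (δ + 3) ^ (2 (r + 1))`:

(1) For all finite extensions `L` of `F`, all finite sets `S` of places of `L` and all points `x` of
`X` over `L`, not on `D` and `Φ = 0`, with the coordinates `x_a = ∑ u_j ρ_(j,a)` (`r` terms), such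
that outside `S` the orders of `u_1, …, u_r` are congruent modulo `M` to some `μ` and the orders of
the `E i (x)` to `d i * μ`,
`h(x) ≤ A (max (2 g - 2 + #S, 0) + ∑ h(ρ_(j,a))) + c [L : F]`.

(2) Let `S` be a finite set of places of `F` and `B` a number. There is a constant `C'` such that the
inequality of the problem, `h_(K + D)(x) ≤ C (χ(x) + N^(1)_D(x)) + C'`, holds for all `L` as above
and all points `x` of `X` over `L`, not on `D` and `Φ = 0`, with the coordinates
`x_a = ∑ u_j ρ_(j,a)` (`r` terms), `h(ρ_(j,a)) ≤ B [L : F]`, such that at the places which are neither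
over `S` nor on `D` the orders of all `u_j` are, modulo `M`, equal to the smallest order of a
coordinate of `x`. -/
theorem result (δ r : ℕ) : ∃ A : ℕ, ∀ {F : Type} [Field F] [Algebra ℂ F] [IsFF ℂ F]
    {N s n g q : ℕ} (_ : n + 1 = N + 1 + s)
    (G : Fin g → MvPolynomial (Fin (n + 1)) F) (e : Fin g → ℕ)
    (_ : ∀ j, (G j).IsHomogeneous (e j)) (_ : ∀ j, e j ≤ δ)
    (E : Fin q → MvPolynomial (Fin (n + 1)) F) (d : Fin q → ℕ)
    (_ : ∀ i, (E i).IsHomogeneous (d i)) (_ : ∑ i, d i ≤ δ)
    (_ : DimGE N G) (_ : SmoothPair s G (fun i (_ : Fin 1) => E i)) (_ : Irred G)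
    (_ : LogGeneralType ℂ N G (fun i (_ : Fin 1) => E i) (fun i _ => d i)),
    ∃ (Φ : MvPolynomial (Fin (n + 1)) F) (a c C : ℕ), Φ.IsHomogeneous a ∧ NonZeroOn G Φ ∧
      ∀ (M : ℕ), 2 * (δ + 3) ^ (2 * (r + 1)) ≤ M →
        (∀ (L : Type) [Field L] [Algebra ℂ L] [Algebra F L] [IsScalarTower ℂ F L]
          [FiniteDimensional F L] [IsFF ℂ L] (S : Finset (Place ℂ L)) (u : Fin r → L)
          (ρ : Fin r → Fin (n + 1) → L) (x : Fin (n + 1) → L), PowerPoint G E d M S u ρ x →
          aeval x Φ ≠ 0 →
          height ℂ x ≤ A * (max (canDeg ℂ L + S.card) 0 + ∑ j, ∑ a, hgt ℂ (ρ j a)) +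
            c * Module.finrank F L) ∧
        ∀ (S : Finset (Place ℂ F)) (B : ℕ), ∃ C' : ℝ,
          ∀ (L : Type) [Field L] [Algebra ℂ L] [Algebra F L] [IsScalarTower ℂ F L]
            [FiniteDimensional F L] [IsFF ℂ L] (u : Fin r → L) (ρ : Fin r → Fin (n + 1) → L)
            (x : Fin (n + 1) → L), SumPoint G E d M B S u ρ x → aeval x Φ ≠ 0 →
            (∃ T : Matrix (Fin (n + 1)) (Fin (N + 1)) L, IsTangentBasis G x T) ∧
            ∀ T : Matrix (Fin (n + 1)) (Fin (N + 1)) L, IsTangentBasis G x T →
              logCanonicalHeight ℂ F (fun i (_ : Fin 1) => E i) (fun i _ => d i) x T ≤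
                C * (chi ℂ F L + truncatedCounting ℂ (fun i (_ : Fin 1) => E i)
                  (fun i _ => d i) x) + C' := by
  classical
  obtain ⟨A, hA⟩ := pt_bound δ r
  refine ⟨A, ?_⟩
  intro F _ _ _ N s n g q hn G e hG he E d hE hd hdim hsm hirr hlgt
  obtain ⟨Φ, a, C0, C0', hΦ, hΦX, hB⟩ := exists_pt_bound (r := r) hn G e hG
    (fun i (_ : Fin 1) => E i) (fun i _ => d i) (fun i _ => hE i) hdim hsm hirr hlgt
  obtain ⟨Ψ, n', a', b', hΨ, hΨX, -, hbig⟩ := hlgt
  obtain ⟨c, hc⟩ := hA G e hG he E d hE hd
  obtain ⟨D, c2, hD⟩ := log_height hn hG d hsm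
  obtain ⟨τ, hτ⟩ := IsFF.exists_transcendental (k := ℂ) (K := F)
  refine ⟨Φ * Ψ, a + n', c, D * A, hΦ.mul hΨ, hirr _ _ hΦX hΨX, fun M hM => ⟨?_, ?_⟩⟩
  · intro L _ _ _ _ _ _ S u ρ x hx hxΦ
    rw [map_mul] at hxΦ
    exact hc Φ C0 C0' hB M hM L S u ρ x hx (left_ne_zero_of_mul hxΦ)
  · intro S B
    obtain ⟨c1, hc1⟩ := sum_to_power (G := G) hE S
    refine ⟨D * (A * (c1 + 2 * hgt ℂ τ + r * (n + 1) * B) + c) + c2, ?_⟩
    intro L _ _ _ _ _ _ u ρ x hx hxΦ
    rw [map_mul] at hxΦ
    obtain ⟨S', hP, hcard⟩ := hc1 L M B u ρ x hx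
    have h1 := hc Φ C0 C0' hB M hM L S' u ρ x hP (left_ne_zero_of_mul hxΦ)
    obtain ⟨T0, hT0, -⟩ := hbig L x hx.nonzero hx.mem (fun i => ⟨0, hx.off i⟩)
      (right_ne_zero_of_mul hxΦ)
    refine ⟨⟨T0, hT0⟩, fun T hT => ?_⟩
    have h2 := hD L x T hx.nonzero hx.mem hx.off hT
    have hf : (0 : ℝ) < Module.finrank F L := by
      exact_mod_cast Module.finrank_pos (R := F) (M := L)
    have hτL : Transcendental ℂ (algebraMap F L τ) :=
      (transcendental_algebraMap_iff (algebraMap F L).injective).2 hτ
    have h3 := canDeg_ge (k := ℂ) (K := L) hτL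
    rw [hgt_algebraMap] at h3
    have hτ0 : 0 ≤ hgt ℂ τ := hgt_nonneg _
    have h4 : max (canDeg ℂ L + (S'.card : ℤ)) 0 ≤
        canDeg ℂ L + S'.card + 2 * (Module.finrank F L * hgt ℂ τ) := by
      refine max_le ?_ ?_
      · have : 0 ≤ 2 * ((Module.finrank F L : ℤ) * hgt ℂ τ) := by positivity
        linarith
      · have : (0 : ℤ) ≤ S'.card := by positivity
        linarith
    have h5 : ∑ j, ∑ a, hgt ℂ (ρ j a) ≤ r * (n + 1) * (B * Module.finrank F L) := by
      refine (Finset.sum_le_sum fun j _ => Finset.sum_le_sum fun a _ =>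
        hx.small j a).trans (le_of_eq ?_)
      rw [Finset.sum_const, Finset.sum_const, Finset.card_univ, Finset.card_univ, Fintype.card_fin,
        Fintype.card_fin, nsmul_eq_mul, nsmul_eq_mul]
      push_cast
      ring
    have h6 : height ℂ x ≤ A * (canDeg ℂ L + S'.card + 2 * (Module.finrank F L * hgt ℂ τ) +
        r * (n + 1) * (B * Module.finrank F L)) + c * Module.finrank F L := by
      refine h1.trans (add_le_add (mul_le_mul_of_nonneg_left ?_ (by positivity)) le_rfl)
      exact add_le_add h4 h5
    have h7 : (height ℂ x : ℝ) ≤ A * (canDeg ℂ L + S'.card +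
        2 * (Module.finrank F L * hgt ℂ τ) + r * (n + 1) * (B * Module.finrank F L)) +
        c * Module.finrank F L := by exact_mod_cast h6
    have h8 : (height ℂ x : ℝ) / Module.finrank F L ≤ A * (chi ℂ F L +
        truncatedCounting ℂ (fun i (_ : Fin 1) => E i) (fun i _ => d i) x + (c1 + 2 * hgt ℂ τ +
        r * (n + 1) * B)) + c := by
      rw [div_le_iff₀ hf]
      refine h7.trans ?_
      have h9 : (canDeg ℂ L : ℝ) = chi ℂ F L * Module.finrank F L := by
        unfold chi
        rw [div_mul_cancel₀ _ hf.ne']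
      rw [h9]
      have h10 : (0 : ℝ) ≤ A := by positivity
      have h11 := mul_le_mul_of_nonneg_left hcard h10
      linarith
    have h9 : (0 : ℝ) ≤ D := by positivity
    have h10 := mul_le_mul_of_nonneg_left h8 h9
    push_cast
    linarith

end Pool.Agent.R849.FK.SumsOfPowersPoints
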